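import Mathlib

open Set Topology Filter

namespace Pool.Agent.H31

/-- points of the ambient product -/
abbrev Pt := List ℚ → ℝ

/-- radius function -/
noncomputable def rad : List ℚ → Pt → ℝ
  | [], _ => 0
  | q :: σ, y => rad σ y + |y σ - q|

/-- the self-similar continuum -/
def YY : Set Pt :=
  {y | (∀ σ, y σ ∈ Icc (-1:ℝ) 1) ∧
    ∀ (q : ℚ) (σ : List ℚ), rad (q :: σ) y ≠ 0 → y (q :: σ) = Real.sin (rad (q :: σ) y)⁻¹}

lemma rad_nil (y : Pt) : rad [] y = 0 := rfl

lemma rad_cons (q : ℚ) (σ : List ℚ) (y : Pt) : rad (q :: σ) y = rad σ y + |y σ - q| := rfl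

lemma rad_nonneg (σ : List ℚ) (y : Pt) : 0 ≤ rad σ y := by
  induction σ with
  | nil => simp [rad_nil]
  | cons q σ ih => rw [rad_cons]; positivity

lemma continuous_rad (σ : List ℚ) : Continuous (rad σ) := by
  induction σ with
  | nil => exact continuous_const
  | cons q σ ih =>
    have : rad (q :: σ) = fun y => rad σ y + |y σ - q| := by
      funext y; rw [rad_cons]
    rw [this]
    exact ih.add (((continuous_apply σ).sub continuous_const).abs)

lemma rad_cons_eq_zero {q : ℚ} {σ : List ℚ} {y : Pt} :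
    rad (q :: σ) y = 0 ↔ rad σ y = 0 ∧ y σ = q := by
  rw [rad_cons]
  constructor
  · intro h
    have h1 := rad_nonneg σ y
    have h2 := abs_nonneg (y σ - q)
    have h3 : rad σ y = 0 := by linarith
    have h4 : |y σ - q| = 0 := by linarith
    exact ⟨h3, by rw [abs_eq_zero] at h4; linarith⟩
  · rintro ⟨h1, h2⟩
    rw [h1, h2]; simp

lemma isClosed_YY : IsClosed YY := by
  have h1 : IsClosed {y : Pt | ∀ σ, y σ ∈ Icc (-1:ℝ) 1} := by
    simp only [Set.ofPred_forall]
    exact isClosed_iInter fun σ => isClosed_Icc.preimage (continuous_apply σ)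
  have h2 : IsClosed {y : Pt | ∀ (q : ℚ) (σ : List ℚ), rad (q :: σ) y ≠ 0 →
      y (q :: σ) = Real.sin (rad (q :: σ) y)⁻¹} := by
    simp only [Set.ofPred_forall]
    refine isClosed_iInter fun q => isClosed_iInter fun σ => ?_
    rw [← isOpen_compl_iff, isOpen_iff_mem_nhds]
    intro y hy
    simp only [mem_compl_iff, mem_ofPred_eq, not_forall] at hy
    obtain ⟨h, h'⟩ := hy
    have hc : ContinuousAt (fun y : Pt => Real.sin (rad (q :: σ) y)⁻¹) y :=
      Real.continuous_sin.continuousAt.comp ((continuous_rad _).continuousAt.inv₀ h)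
    have e1 : ∀ᶠ z in 𝓝 y, rad (q :: σ) z ≠ 0 :=
      (continuous_rad (q :: σ)).continuousAt.eventually_ne h
    have e2 : ∀ᶠ z in 𝓝 y, z (q :: σ) - Real.sin (rad (q :: σ) z)⁻¹ ≠ 0 :=
      ((continuous_apply (q :: σ)).continuousAt.sub hc).eventually_ne (sub_ne_zero.2 h')
    filter_upwards [e1, e2] with z hz1 hz2
    simp only [mem_compl_iff, mem_ofPred_eq, not_forall]
    exact ⟨hz1, sub_ne_zero.1 hz2⟩
  exact h1.inter h2

lemma isCompact_YY : IsCompact YY := by
  have : IsCompact (Set.pi univ (fun _ : List ℚ => Icc (-1:ℝ) 1)) :=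
    isCompact_univ_pi fun _ => isCompact_Icc
  refine this.of_isClosed_subset isClosed_YY ?_
  intro y hy σ _
  exact hy.1 σ

lemma rad_mono {σ τ : List ℚ} (h : σ <:+ τ) (y : Pt) : rad σ y ≤ rad τ y := by
  induction τ with
  | nil => simp at h; subst h; exact le_rfl
  | cons q τ ih =>
    rcases List.suffix_cons_iff.1 h with h | h
    · subst h; exact le_rfl
    · have := ih h
      rw [rad_cons]
      have h2 := abs_nonneg (y τ - q)
      linarith

lemma rad_zero_of_suffix {σ τ : List ℚ} (h : σ <:+ τ) {y : Pt} (hy : rad τ y = 0) :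
    rad σ y = 0 := le_antisymm (by rw [← hy]; exact rad_mono h y) (rad_nonneg σ y)

lemma val_of_suffix {q : ℚ} {σ τ : List ℚ} (h : (q :: σ) <:+ τ) {y : Pt} (hy : rad τ y = 0) :
    y σ = q := (rad_cons_eq_zero.1 (rad_zero_of_suffix h hy)).2

lemma eq_of_length {σ : List ℚ} : ∀ {τ : List ℚ} {y : Pt}, rad σ y = 0 → rad τ y = 0 →
    σ.length = τ.length → σ = τ := by
  induction σ with
  | nil =>
    intro τ y _ _ h
    symm
    rw [← List.length_eq_zero_iff, ← h]; rfl
  | cons q σ ih =>
    intro τ y h1 h2 h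
    cases τ with
    | nil => simp at h
    | cons p τ =>
      have h1' := rad_cons_eq_zero.1 h1
      have h2' := rad_cons_eq_zero.1 h2
      have : σ = τ := ih h1'.1 h2'.1 (by simpa using h)
      subst this
      have : (q : ℝ) = p := by rw [← h1'.2, ← h2'.2]
      have : q = p := by exact_mod_cast this
      rw [this]

lemma suffix_of_length_le {σ : List ℚ} {y : Pt} (hσ : rad σ y = 0) :
    ∀ {τ : List ℚ}, rad τ y = 0 → σ.length ≤ τ.length → σ <:+ τ := by
  intro τ
  induction τ with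
  | nil =>
    intro _ h
    have : σ = [] := by
      rw [← List.length_eq_zero_iff]; simpa using h
    rw [this]
  | cons p τ ih =>
    intro h2 h
    rcases Nat.lt_or_ge τ.length σ.length with h3 | h3
    · have : σ.length = (p :: τ).length := by simp at h ⊢; omega
      rw [eq_of_length hσ h2 this]
    · exact (ih (rad_cons_eq_zero.1 h2).1 h3).trans (List.suffix_cons p τ)

lemma exists_cons_suffix {σ τ : List ℚ} (h : σ <:+ τ) (hne : σ ≠ τ) :
    ∃ q, (q :: σ) <:+ τ := by
  induction τ with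
  | nil => simp at h; exact absurd h hne
  | cons p τ ih =>
    rcases List.suffix_cons_iff.1 h with h | h
    · exact absurd h hne
    · by_cases h' : σ = τ
      · subst h'; exact ⟨p, List.suffix_rfl⟩
      · obtain ⟨q, hq⟩ := ih h h'
        exact ⟨q, hq.trans (List.suffix_cons p τ)⟩

/-- a crossing value (irrational) can only be carried at the end of the branch -/
lemma end_of_irrational {σ τ : List ℚ} {y : Pt} (hσ : rad σ y = 0) (hτ : rad τ y = 0)
    (hirr : Irrational (y σ)) : τ <:+ σ := by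
  rcases Nat.lt_or_ge σ.length τ.length with h | h
  · exfalso
    have h1 := suffix_of_length_le hσ hτ h.le
    have hne : σ ≠ τ := by rintro rfl; exact lt_irrefl _ h
    obtain ⟨q, hq⟩ := exists_cons_suffix h1 hne
    exact hirr ⟨q, (val_of_suffix hq hτ).symm⟩
  · exact suffix_of_length_le hτ hσ h

lemma eq_of_irrational {σ τ : List ℚ} {y : Pt} (hσ : rad σ y = 0) (hτ : rad τ y = 0)
    (h1 : Irrational (y σ)) (h2 : Irrational (y τ)) : σ = τ :=
  (end_of_irrational hτ hσ h2).eq_of_length_le (end_of_irrational hσ hτ h1).length_le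

/-- Uniqueness lemma. -/
lemma eq_of_agree {y y' : Pt} (hy : y ∈ YY) (hy' : y' ∈ YY)
    (h : ∀ τ, rad τ y = 0 → y τ = y' τ) : y = y' := by
  have key : ∀ μ, rad μ y = rad μ y' ∧ y μ = y' μ := by
    intro μ
    induction μ with
    | nil => exact ⟨rfl, h [] rfl⟩
    | cons q μ ih =>
      have h1 : rad (q :: μ) y = rad (q :: μ) y' := by
        rw [rad_cons, rad_cons, ih.1, ih.2]
      refine ⟨h1, ?_⟩
      by_cases h0 : rad (q :: μ) y = 0
      · exact h _ h0
      · rw [hy.2 q μ h0, hy'.2 q μ (h1 ▸ h0), h1]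
  funext μ
  exact (key μ).2

/-- auxiliary recursion for constructing points -/
noncomputable def aux (t : Pt) : List ℚ → ℝ × ℝ
  | [] => (t [], 0)
  | q :: σ =>
    let r := (aux t σ).2 + |(aux t σ).1 - q|
    (if r = 0 then t (q :: σ) else Real.sin r⁻¹, r)

lemma exists_point (t : Pt) (ht : ∀ σ, t σ ∈ Icc (-1:ℝ) 1) :
    ∃ y ∈ YY, ∀ σ, rad σ y = 0 → y σ = t σ := by
  classical
  let y : Pt := fun σ => (aux t σ).1
  have hr : ∀ σ, rad σ y = (aux t σ).2 := by
    intro σ
    induction σ with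
    | nil => rfl
    | cons q σ ih => rw [rad_cons, ih]; rfl
  have hv : ∀ q σ, y (q :: σ) = if rad (q :: σ) y = 0 then t (q :: σ)
      else Real.sin (rad (q :: σ) y)⁻¹ := by
    intro q σ
    rw [hr]
    show (aux t (q :: σ)).1 = _
    simp only [aux]
  refine ⟨y, ⟨?_, ?_⟩, ?_⟩
  · intro σ
    cases σ with
    | nil => exact ht []
    | cons q σ =>
      rw [hv]
      split_ifs
      · exact ht _
      · exact Real.sin_mem_Icc _
  · intro q σ h
    rw [hv, if_neg h]
  · intro σ h
    cases σ with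
    | nil => rfl
    | cons q σ => rw [hv, if_pos h]

lemma exists_point_val {σ : List ℚ} {y : Pt} (hy : y ∈ YY) (h : rad σ y = 0) {v : ℝ}
    (hv : v ∈ Icc (-1:ℝ) 1) : ∃ y' ∈ YY, rad σ y' = 0 ∧ y' σ = v := by
  classical
  obtain ⟨y', hy', h'⟩ := exists_point (fun ν => if ν = σ then v else y ν) (by
    intro ν
    split_ifs
    · exact hv
    · exact hy.1 ν)
  have key : ∀ ν, ν <:+ σ → rad ν y' = 0 := by
    intro ν
    induction ν with
    | nil => intro _; rfl
    | cons q ν ih =>
      intro hs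
      have hs' : ν <:+ σ := (List.suffix_cons q ν).trans hs
      have h1 := ih hs'
      have hne : ν ≠ σ := by
        rintro rfl
        have := hs.length_le
        simp at this
      rw [rad_cons_eq_zero]
      refine ⟨h1, ?_⟩
      rw [h' ν h1, if_neg hne]
      exact val_of_suffix hs h
  refine ⟨y', hy', key σ List.suffix_rfl, ?_⟩
  rw [h' σ (key σ List.suffix_rfl), if_pos rfl]

lemma YY_nonempty : YY.Nonempty := by
  obtain ⟨y, hy, _⟩ := exists_point (fun _ => 0) (by intro σ; simp)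
  exact ⟨y, hy⟩

lemma isPreconnected_YY : IsPreconnected YY := by
  rw [isPreconnected_closed_iff]
  intro t t' ht ht' hcov hne hne'
  by_contra hcon
  rw [Set.not_nonempty_iff_eq_empty] at hcon
  have hdis : ∀ y ∈ YY, y ∈ t → y ∈ t' → False := by
    intro y hy h1 h2
    have : y ∈ YY ∩ (t ∩ t') := ⟨hy, h1, h2⟩
    rw [hcon] at this; exact this
  -- bad lists
  let Bad : List ℚ → Prop := fun σ => (∃ y ∈ YY, y ∈ t ∧ rad σ y = 0) ∧
    (∃ y ∈ YY, y ∈ t' ∧ rad σ y = 0)
  have step : ∀ σ, Bad σ → ∃ q, Bad (q :: σ) := by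
    rintro σ ⟨⟨y1, hy1, hy1t, hr1⟩, ⟨y2, hy2, hy2t, hr2⟩⟩
    -- images
    have hcA : IsCompact (YY ∩ t ∩ {y | rad σ y = 0}) :=
      (isCompact_YY.inter_right ht).inter_right
        (isClosed_singleton.preimage (continuous_rad σ) : IsClosed {y | rad σ y = 0})
    have hcB : IsCompact (YY ∩ t' ∩ {y | rad σ y = 0}) :=
      (isCompact_YY.inter_right ht').inter_right
        (isClosed_singleton.preimage (continuous_rad σ) : IsClosed {y | rad σ y = 0})
    have hA := (hcA.image (continuous_apply σ)).isClosed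
    have hB := (hcB.image (continuous_apply σ)).isClosed
    have hconn := isPreconnected_closed_iff.1 (isPreconnected_Icc (a := (-1:ℝ)) (b := 1)) _ _ hA hB
    have hcov' : Icc (-1:ℝ) 1 ⊆ ((fun y : Pt => y σ) '' (YY ∩ t ∩ {y | rad σ y = 0})) ∪
        ((fun y : Pt => y σ) '' (YY ∩ t' ∩ {y | rad σ y = 0})) := by
      intro v hv
      obtain ⟨y', hy', hr', hv'⟩ := exists_point_val hy1 hr1 hv
      rcases hcov hy' with h | h
      · left; exact ⟨y', ⟨⟨hy', h⟩, hr'⟩, hv'⟩
      · right; exact ⟨y', ⟨⟨hy', h⟩, hr'⟩, hv'⟩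
    obtain ⟨v, hvI, ⟨a, ⟨⟨haY, hat⟩, har⟩, hav⟩, ⟨b, ⟨⟨hbY, hbt⟩, hbr⟩, hbv⟩⟩ :=
      hconn hcov' ⟨y1 σ, hy1.1 σ, ⟨y1, ⟨⟨hy1, hy1t⟩, hr1⟩, rfl⟩⟩
        ⟨y2 σ, hy2.1 σ, ⟨y2, ⟨⟨hy2, hy2t⟩, hr2⟩, rfl⟩⟩
    simp only [mem_ofPred_eq] at har hbr hav hbv
    by_cases hirr : Irrational v
    · exfalso
      have hab : a = b := by
        refine eq_of_agree haY hbY ?_
        intro τ hτ
        have hsuf : τ <:+ σ := end_of_irrational har hτ (by rw [hav]; exact hirr)
        by_cases hτσ : τ = σ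
        · rw [hτσ, hav, hbv]
        · obtain ⟨q, hq⟩ := exists_cons_suffix hsuf hτσ
          rw [val_of_suffix hq har, val_of_suffix hq hbr]
      subst hab
      exact hdis a haY hat hbt
    · unfold Irrational at hirr
      push Not at hirr
      obtain ⟨q, hq⟩ := hirr
      exact ⟨q, ⟨a, haY, hat, rad_cons_eq_zero.2 ⟨har, by rw [hav, hq]⟩⟩,
        ⟨b, hbY, hbt, rad_cons_eq_zero.2 ⟨hbr, by rw [hbv, hq]⟩⟩⟩
  have bad0 : Bad [] := by
    obtain ⟨a, ha1, ha2⟩ := hne
    obtain ⟨b, hb1, hb2⟩ := hne'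
    exact ⟨⟨a, ha1, ha2, rfl⟩, ⟨b, hb1, hb2, rfl⟩⟩
  choose! nxt hnxt using step
  let s : ℕ → List ℚ := fun n => Nat.rec [] (fun _ l => nxt l :: l) n
  have hs0 : s 0 = [] := rfl
  have hs1 : ∀ n, s (n+1) = nxt (s n) :: s n := fun n => rfl
  have hbad : ∀ n, Bad (s n) := by
    intro n
    induction n with
    | zero => exact bad0
    | succ n ih => rw [hs1]; exact hnxt _ ih
  have hlen : ∀ n, (s n).length = n := by
    intro n
    induction n with
    | zero => rfl
    | succ n ih => rw [hs1, List.length_cons, ih]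
  have hinter : ∀ u : Set Pt, IsClosed u → (∀ n, ∃ y ∈ YY, y ∈ u ∧ rad (s n) y = 0) →
      ∃ y ∈ YY, y ∈ u ∧ ∀ n, rad (s n) y = 0 := by
    intro u hu h
    have := IsCompact.nonempty_iInter_of_sequence_nonempty_isCompact_isClosed
      (fun n => YY ∩ u ∩ {y | rad (s n) y = 0}) (by
        intro n y hy
        refine ⟨hy.1, ?_⟩
        have := hy.2
        simp only [mem_ofPred_eq] at this ⊢
        rw [hs1] at this
        exact (rad_cons_eq_zero.1 this).1) (by
        intro n
        obtain ⟨y, h1, h2, h3⟩ := h n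
        exact ⟨y, ⟨h1, h2⟩, h3⟩) (by
        exact (isCompact_YY.inter_right hu).inter_right
          (isClosed_singleton.preimage (continuous_rad _) : IsClosed {y | rad (s 0) y = 0})) (by
        intro n
        exact ((isCompact_YY.inter_right hu).inter_right
          (isClosed_singleton.preimage (continuous_rad _) : IsClosed {y | rad (s n) y = 0})).isClosed)
    obtain ⟨y, hy⟩ := this
    simp only [mem_iInter, mem_inter_iff, mem_ofPred_eq] at hy
    exact ⟨y, (hy 0).1.1, (hy 0).1.2, fun n => (hy n).2⟩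
  obtain ⟨a, haY, hat, har⟩ := hinter t ht (fun n => (hbad n).1)
  obtain ⟨b, hbY, hbt, hbr⟩ := hinter t' ht' (fun n => (hbad n).2)
  have hab : a = b := by
    refine eq_of_agree haY hbY ?_
    intro τ hτ
    have h1 : τ = s τ.length := eq_of_length hτ (har _) (hlen _).symm
    have h2 : (nxt (s τ.length) :: s τ.length) <:+ s (τ.length + 1) := by
      rw [hs1]
    rw [← h1] at h2
    rw [val_of_suffix h2 (har (τ.length + 1)), val_of_suffix h2 (hbr (τ.length + 1))]
  subst hab
  exact hdis a haY hat hbt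

end Pool.Agent.H31
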