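import Mathlib
import Pool.Agent.H31.YSpace

open Set Topology Filter

namespace Pool.Agent.H31

lemma exists_small_sin {z : ℝ} (hz : z ∈ Icc (-1:ℝ) 1) {ε : ℝ} (hε : 0 < ε) :
    ∃ r, 0 < r ∧ r < ε ∧ Real.sin r⁻¹ = z := by
  obtain ⟨n, hn⟩ := exists_nat_gt ((ε⁻¹ + Real.pi))
  have hpi := Real.pi_gt_three
  have h1 : -(Real.pi/2) ≤ Real.arcsin z := Real.neg_pi_div_two_le_arcsin z
  have h2 : ε⁻¹ < Real.arcsin z + n * (2 * Real.pi) := by
    have : (n:ℝ) * 1 ≤ n * (2 * Real.pi) := by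
      apply mul_le_mul_of_nonneg_left _ (Nat.cast_nonneg n); linarith
    linarith
  have h3 : 0 < ε⁻¹ := inv_pos.2 hε
  refine ⟨(Real.arcsin z + n * (2 * Real.pi))⁻¹, inv_pos.2 (h3.trans h2), ?_, ?_⟩
  · rw [inv_lt_comm₀ (h3.trans h2) hε]; exact h2
  · rw [inv_inv, Real.sin_add_nat_mul_two_pi, Real.sin_arcsin hz.1 hz.2]

/-- The covering property of a sequence of sets along the branch `σ`. -/
def Cov (R : ℕ → Set Pt) (σ : List ℚ) : Prop :=
  ∀ z ∈ Icc (-1:ℝ) 1, ∀ ε > 0, ∀ᶠ k in atTop, ∃ y ∈ R k, rad σ y < ε ∧ y σ = z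

lemma Cov.cons {R : ℕ → Set Pt} (hR : ∀ k, IsPreconnected (R k)) (hRY : ∀ k, R k ⊆ YY)
    {τ : List ℚ} (h : Cov R τ) {q : ℚ} (hq : (q:ℝ) ∈ Icc (-1:ℝ) 1) : Cov R (q :: τ) := by
  intro z hz ε hε
  obtain ⟨r, hr0, hr1, hr2⟩ := exists_small_sin hz (lt_min hε one_pos)
  obtain ⟨w, hw, hw1⟩ : ∃ w ∈ Icc (-1:ℝ) 1, 1 ≤ |w - q| := by
    rcases le_total (q:ℝ) 0 with h0 | h0
    · refine ⟨1, by constructor <;> norm_num, ?_⟩
      rw [abs_of_nonneg (by linarith [hq.2])]; linarith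
    · refine ⟨-1, by constructor <;> norm_num, ?_⟩
      rw [abs_of_nonpos (by linarith [hq.1])]; linarith
  filter_upwards [h q hq r hr0, h w hw 1 one_pos] with k hk1 hk2
  obtain ⟨y1, hy1R, hy1r, hy1v⟩ := hk1
  obtain ⟨y2, hy2R, _, hy2v⟩ := hk2
  have e1 : rad (q :: τ) y1 < r := by rw [rad_cons, hy1v]; simpa using hy1r
  have e2 : 1 ≤ rad (q :: τ) y2 := by
    rw [rad_cons, hy2v]; linarith [rad_nonneg τ y2]
  have hconn := (hR k).image (rad (q :: τ)) (continuous_rad _).continuousOn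
  have hord := hconn.ordConnected
  have : r ∈ rad (q :: τ) '' R k := by
    refine hord.out ⟨y1, hy1R, rfl⟩ ⟨y2, hy2R, rfl⟩ ⟨e1.le, ?_⟩
    exact (hr1.le.trans (min_le_right _ _)).trans e2
  obtain ⟨y3, hy3R, hy3r⟩ := this
  refine ⟨y3, hy3R, by rw [hy3r]; exact lt_of_lt_of_le hr1 (min_le_left _ _), ?_⟩
  rw [(hRY k hy3R).2 q τ (by rw [hy3r]; exact hr0.ne'), hy3r, hr2]

lemma Cov.of_suffix {R : ℕ → Set Pt} (hR : ∀ k, IsPreconnected (R k)) (hRY : ∀ k, R k ⊆ YY)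
    {σ : List ℚ} (h : Cov R σ) {y : Pt} (hy : y ∈ YY) {τ : List ℚ} (hτ : rad τ y = 0)
    (hs : σ <:+ τ) : Cov R τ := by
  induction τ with
  | nil => simp at hs; subst hs; exact h
  | cons q τ ih =>
    rcases List.suffix_cons_iff.1 hs with hs' | hs'
    · subst hs'; exact h
    · have h1 := rad_cons_eq_zero.1 hτ
      exact (ih h1.1 hs').cons hR hRY (by rw [← h1.2]; exact hy.1 τ)

/-- The filter of points of `YY` close to the fibre at `τ` with value `v` at `τ`. -/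
noncomputable def nf (τ : List ℚ) (v : ℝ) : Filter Pt :=
  comap (rad τ) (𝓝 0) ⊓ 𝓟 {y | y ∈ YY ∧ y τ = v}

lemma nf_mem {τ : List ℚ} {v : ℝ} {U : Set Pt} (hU : U ∈ nf τ v) :
    ∃ ε > 0, ∀ y ∈ YY, rad τ y < ε → y τ = v → y ∈ U := by
  rw [nf, mem_inf_principal, mem_comap] at hU
  obtain ⟨t, ht, htU⟩ := hU
  obtain ⟨ε, hε, hb⟩ := Metric.mem_nhds_iff.1 ht
  refine ⟨ε, hε, fun y hy hr hv => ?_⟩
  have : y ∈ rad τ ⁻¹' t := by
    apply hb
    rw [Metric.mem_ball, Real.dist_eq, sub_zero, abs_of_nonneg (rad_nonneg _ _)]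
    exact hr
  exact htU this ⟨hy, hv⟩

lemma nf_tendsto {τ : List ℚ} {y : Pt} (hy : y ∈ YY) (hτ : rad τ y = 0) {n : ℕ}
    (hmax : ∀ μ : List ℚ, rad μ y = 0 → μ.length ≤ n → μ <:+ τ) :
    ∀ μ : List ℚ, μ.length ≤ n → Tendsto (rad μ) (nf τ (y τ)) (𝓝 (rad μ y)) ∧
      Tendsto (fun z : Pt => z μ) (nf τ (y τ)) (𝓝 (y μ)) := by
  have hτ0 : Tendsto (rad τ) (nf τ (y τ)) (𝓝 0) := (tendsto_comap).mono_left inf_le_left
  have hYY : ∀ᶠ z in nf τ (y τ), z ∈ YY ∧ z τ = y τ :=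
    mem_of_superset (mem_inf_of_right (mem_principal_self _)) (fun z hz => hz)
  -- value step
  have hval : ∀ μ : List ℚ, μ.length ≤ n → Tendsto (rad μ) (nf τ (y τ)) (𝓝 (rad μ y)) →
      Tendsto (fun z : Pt => z μ) (nf τ (y τ)) (𝓝 (y μ)) := by
    intro μ hμ hr
    by_cases hs : μ <:+ τ
    · by_cases he : μ = τ
      · subst he
        refine tendsto_const_nhds.congr' ?_
        filter_upwards [hYY] with z hz
        exact hz.2.symm
      · obtain ⟨q, hq⟩ := exists_cons_suffix hs he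
        rw [val_of_suffix hq hτ]
        rw [tendsto_iff_dist_tendsto_zero]
        refine squeeze_zero (fun z => dist_nonneg) (fun z => ?_) hτ0
        have h1 := rad_mono hq z
        rw [rad_cons] at h1
        rw [Real.dist_eq]
        linarith [rad_nonneg μ z]
    · have h0 : rad μ y ≠ 0 := fun h => hs (hmax μ h hμ)
      cases μ with
      | nil => exact absurd (rad_nil y) h0
      | cons p μ =>
        rw [hy.2 p μ h0]
        have h1 : Tendsto (fun z => Real.sin (rad (p :: μ) z)⁻¹) (nf τ (y τ))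
            (𝓝 (Real.sin (rad (p :: μ) y)⁻¹)) :=
          (Real.continuous_sin.tendsto _).comp (hr.inv₀ h0)
        refine h1.congr' ?_
        filter_upwards [hYY, hr.eventually_ne h0] with z hz hz0
        exact (hz.1.2 p μ hz0).symm
  intro μ
  induction μ with
  | nil =>
    intro h
    have hr : Tendsto (rad []) (nf τ (y τ)) (𝓝 (rad [] y)) := by
      have : rad [] = fun _ => 0 := by funext z; rfl
      rw [this]; exact tendsto_const_nhds
    exact ⟨hr, hval [] h hr⟩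
  | cons p μ ih =>
    intro h
    have h' : μ.length ≤ n := by simp at h; omega
    obtain ⟨h1, h2⟩ := ih h'
    have hr : Tendsto (rad (p :: μ)) (nf τ (y τ)) (𝓝 (rad (p :: μ) y)) := by
      have : rad (p :: μ) = fun z => rad μ z + |z μ - p| := by funext z; rfl
      rw [this]
      exact h1.add ((h2.sub tendsto_const_nhds).abs)
    exact ⟨hr, hval _ h hr⟩

lemma exists_max_branch {σ : List ℚ} {y : Pt} (hσ : rad σ y = 0) (n : ℕ) :
    ∃ τ, rad τ y = 0 ∧ σ <:+ τ ∧ ∀ μ : List ℚ, rad μ y = 0 → μ.length ≤ n → μ <:+ τ := by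
  classical
  -- consider lengths
  let P : ℕ → Prop := fun k => ∃ τ : List ℚ, rad τ y = 0 ∧ σ <:+ τ ∧ τ.length = k
  let m := max n σ.length
  have hP : P σ.length := ⟨σ, hσ, List.suffix_rfl, rfl⟩
  obtain ⟨τ, h1, h2, h3⟩ : P (Nat.findGreatest P m) :=
    Nat.findGreatest_spec (le_max_right n σ.length) hP
  refine ⟨τ, h1, h2, fun μ hμ hμn => ?_⟩
  rcases Nat.lt_or_ge τ.length μ.length with h | h
  · exfalso
    have hs : τ <:+ μ := suffix_of_length_le h1 hμ h.le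
    have hPμ : P μ.length := ⟨μ, hμ, h2.trans hs, rfl⟩
    have h4 : μ.length ≤ Nat.findGreatest P m :=
      Nat.le_findGreatest (hμn.trans (le_max_left n σ.length)) hPμ
    rw [← h3] at h4
    exact absurd h (not_lt.2 h4)
  · exact suffix_of_length_le hμ h1 h

/-- Approximation lemma. -/
lemma Cov.approx {R : ℕ → Set Pt} (hR : ∀ k, IsPreconnected (R k)) (hRY : ∀ k, R k ⊆ YY)
    {σ : List ℚ} (h : Cov R σ) {y : Pt} (hy : y ∈ YY) (hσ : rad σ y = 0) {U : Set Pt}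
    (hU : U ∈ 𝓝 y) : ∀ᶠ k in atTop, (R k ∩ U).Nonempty := by
  rw [nhds_pi, Filter.mem_pi] at hU
  obtain ⟨I, hI, t, ht, hIU⟩ := hU
  obtain ⟨n, hn⟩ : ∃ n, ∀ μ ∈ I, μ.length ≤ n := by
    obtain ⟨n, hn⟩ := (hI.image List.length).bddAbove
    exact ⟨n, fun μ hμ => hn ⟨μ, hμ, rfl⟩⟩
  obtain ⟨τ, hτ, hs, hmax⟩ := exists_max_branch hσ n
  have hev : ∀ᶠ z in nf τ (y τ), z ∈ U := by
    have : ∀ᶠ z in nf τ (y τ), ∀ μ ∈ I, z μ ∈ t μ := by
      rw [Filter.eventually_all_finite hI]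
      intro μ hμ
      exact (nf_tendsto hy hτ hmax μ (hn μ hμ)).2.eventually (ht μ)
    filter_upwards [this] with z hz
    exact hIU hz
  obtain ⟨ε, hε, hball⟩ := nf_mem hev
  have hc := h.of_suffix hR hRY hy hτ hs
  filter_upwards [hc (y τ) (hy.1 τ) ε hε] with k hk
  obtain ⟨z, hz1, hz2, hz3⟩ := hk
  exact ⟨z, hz1, hball z (hRY k hz1) hz2 hz3⟩

end Pool.Agent.H31
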