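import Mathlib

open Set Topology Filter

namespace Pool.Agent.H31

lemma exists_clopen_sep {M : Type*} [TopologicalSpace M] [T2Space M] [CompactSpace M]
    {A B : Set M} (hA : IsClosed A) (hB : IsClosed B)
    (h : ∀ x ∈ A, ∀ y ∈ B, y ∉ connectedComponent x) :
    ∃ Z : Set M, IsClopen Z ∧ A ⊆ Z ∧ Disjoint Z B := by
  have h1 : ∀ x ∈ A, ∃ Z : Set M, IsClopen Z ∧ x ∈ Z ∧ Disjoint Z B := by
    intro x hx
    have hempty : B ∩ ⋂ s : { s : Set M // IsClopen s ∧ x ∈ s }, (s : Set M) = ∅ := by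
      rw [← connectedComponent_eq_iInter_isClopen]
      ext y
      simp only [mem_inter_iff, mem_empty_iff_false, iff_false, not_and]
      exact fun hy => h x hx y hy
    obtain ⟨u, hu⟩ := hB.isCompact.elim_finite_subfamily_closed
      (fun s : { s : Set M // IsClopen s ∧ x ∈ s } => (s : Set M)) (fun s => s.2.1.1) hempty
    refine ⟨⋂ i ∈ u, (i : Set M), isClopen_biInter_finset fun i _ => i.2.1, ?_, ?_⟩
    · simp only [mem_iInter]
      exact fun i _ => i.2.2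
    · rw [Set.disjoint_iff_inter_eq_empty, inter_comm]; exact hu
  choose! Z hZ1 hZ2 hZ3 using h1
  obtain ⟨t, ht⟩ := hA.isCompact.elim_finite_subcover (fun x : A => Z x)
    (fun x => (hZ1 x x.2).2) (fun x hx => mem_iUnion.2 ⟨⟨x, hx⟩, hZ2 x hx⟩)
  refine ⟨⋃ i ∈ t, Z i, isClopen_biUnion_finset fun i _ => hZ1 i i.2, ht, ?_⟩
  rw [Set.disjoint_iUnion₂_left]
  exact fun i _ => hZ3 i i.2

lemma exists_crossing {X : Type*} [TopologicalSpace X] [T2Space X] {D : Set X}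
    (hD : IsCompact D) (hDc : IsPreconnected D) {ρ : X → ℝ} (hρ : Continuous ρ) {a b : ℝ}
    (hab : a < b) {p q : X} (hp : p ∈ D) (hq : q ∈ D) (hpa : ρ p ≤ a) (hqb : b ≤ ρ q) :
    ∃ R ⊆ D, IsPreconnected R ∧ (∀ x ∈ R, a ≤ ρ x ∧ ρ x ≤ b) ∧ (∃ x ∈ R, ρ x = a) ∧
      (∃ x ∈ R, ρ x = b) := by
  by_contra hcon
  push Not at hcon
  have hM : IsCompact (D ∩ ρ ⁻¹' Icc a b) := hD.inter_right (isClosed_Icc.preimage hρ)
  have : CompactSpace ↥(D ∩ ρ ⁻¹' Icc a b) := isCompact_iff_compactSpace.1 hM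
  let A : Set ↥(D ∩ ρ ⁻¹' Icc a b) := {x | ρ x = a}
  let B : Set ↥(D ∩ ρ ⁻¹' Icc a b) := {x | ρ x = b}
  have hA : IsClosed A := isClosed_singleton.preimage (hρ.comp continuous_subtype_val)
  have hB : IsClosed B := isClosed_singleton.preimage (hρ.comp continuous_subtype_val)
  obtain ⟨Z, hZ, hAZ, hZB⟩ := exists_clopen_sep hA hB (by
    intro x hx y hy hxy
    refine hcon (Subtype.val '' connectedComponent x) ?_ ?_ ?_ ?_ y ?_ hy
    · rintro _ ⟨z, _, rfl⟩; exact z.2.1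
    · exact isPreconnected_connectedComponent.image _ continuous_subtype_val.continuousOn
    · rintro _ ⟨z, _, rfl⟩; exact z.2.2
    · exact ⟨x, ⟨x, mem_connectedComponent, rfl⟩, hx⟩
    · exact ⟨y, hxy, rfl⟩)
  have hP : IsClosed ((D ∩ {x | ρ x ≤ a}) ∪ Subtype.val '' Z) := by
    refine IsClosed.union (hD.isClosed.inter (isClosed_le hρ continuous_const)) ?_
    exact (hZ.1.isCompact.image continuous_subtype_val).isClosed
  have hQ : IsClosed ((D ∩ {x | b ≤ ρ x}) ∪ Subtype.val '' Zᶜ) := by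
    refine IsClosed.union (hD.isClosed.inter (isClosed_le continuous_const hρ)) ?_
    exact (hZ.2.isClosed_compl.isCompact.image continuous_subtype_val).isClosed
  obtain ⟨x, hxD, hx1, hx2⟩ := isPreconnected_closed_iff.1 hDc _ _ hP hQ (by
    intro x hx
    rcases le_total (ρ x) a with h | h
    · left; left; exact ⟨hx, h⟩
    · rcases le_total b (ρ x) with h' | h'
      · right; left; exact ⟨hx, h'⟩
      · by_cases hz : (⟨x, hx, h, h'⟩ : ↥(D ∩ ρ ⁻¹' Icc a b)) ∈ Z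
        · left; right; exact ⟨_, hz, rfl⟩
        · right; right; exact ⟨_, hz, rfl⟩)
    ⟨p, hp, Or.inl ⟨hp, hpa⟩⟩ ⟨q, hq, Or.inl ⟨hq, hqb⟩⟩
  rcases hx1 with ⟨_, h1⟩ | ⟨z, hz, rfl⟩
  · rcases hx2 with ⟨_, h2⟩ | ⟨z, hz, rfl⟩
    · simp only [mem_ofPred_eq] at h1 h2
      linarith
    · apply hz
      apply hAZ
      exact le_antisymm h1 z.2.2.1
  · rcases hx2 with ⟨_, h2⟩ | ⟨z', hz', h'⟩
    · have : z ∈ B := le_antisymm z.2.2.2 h2
      exact Set.disjoint_left.1 hZB hz this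
    · have : z' = z := Subtype.ext h'
      subst this
      exact hz' hz

end Pool.Agent.H31
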