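import Mathlib

open Set Topology Filter

namespace Pool.Agent.H31

section quot
variable {X : Type*} [TopologicalSpace X] [CompactSpace X] [T2Space X] {s : Setoid X}

lemma isClosedMap_mk (hs : IsClosed {p : X × X | s p.1 p.2}) :
    IsClosedMap (Quotient.mk s) := by
  intro A hA
  rw [← isQuotientMap_quotient_mk'.isClosed_preimage]
  have : (Quotient.mk' : X → Quotient s) ⁻¹' (Quotient.mk s '' A) =
      Prod.snd '' ({p : X × X | s p.1 p.2} ∩ (A ×ˢ univ)) := by
    ext x
    simp only [mem_preimage, mem_image, mem_inter_iff, mem_ofPred_eq, mem_prod, mem_univ,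
      and_true, Prod.exists, exists_eq_right]
    constructor
    · rintro ⟨a, ha, h⟩
      exact ⟨a, Quotient.exact h, ha⟩
    · rintro ⟨a, h, ha⟩
      exact ⟨a, ha, Quotient.sound h⟩
  rw [this]
  exact ((hs.inter (hA.prod isClosed_univ)).isCompact.image continuous_snd).isClosed

/-- the open set of classes contained in `U` -/
def sat (s : Setoid X) (U : Set X) : Set (Quotient s) := (Quotient.mk s '' Uᶜ)ᶜ

omit [TopologicalSpace X] [CompactSpace X] [T2Space X] in
lemma mem_sat {U : Set X} {q : Quotient s} : q ∈ sat s U ↔ ∀ x, Quotient.mk s x = q → x ∈ U := by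
  simp only [sat, mem_compl_iff, mem_image, not_exists, not_and]
  constructor
  · intro h x hx
    by_contra hxU
    exact h x hxU hx
  · intro h x hxU hx
    exact hxU (h x hx)

lemma isOpen_sat (hs : IsClosed {p : X × X | s p.1 p.2}) {U : Set X} (hU : IsOpen U) :
    IsOpen (sat s U) := (isClosedMap_mk hs _ hU.isClosed_compl).isOpen_compl

lemma t2_quot (hs : IsClosed {p : X × X | s p.1 p.2}) : T2Space (Quotient s) := by
  have hcl : ∀ q : Quotient s, IsClosed {q} := by
    intro q
    obtain ⟨x, rfl⟩ := Quotient.exists_rep q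
    have := isClosedMap_mk hs {x} isClosed_singleton
    rwa [image_singleton] at this
  refine ⟨fun q q' hne => ?_⟩
  have hcont : Continuous (Quotient.mk s) := continuous_quotient_mk'
  have h1 : IsClosed (Quotient.mk s ⁻¹' {q}) := (hcl q).preimage hcont
  have h2 : IsClosed (Quotient.mk s ⁻¹' {q'}) := (hcl q').preimage hcont
  have hd : Disjoint (Quotient.mk s ⁻¹' {q}) (Quotient.mk s ⁻¹' {q'}) := by
    rw [Set.disjoint_left]
    intro x hx hx'
    exact hne (hx.symm.trans hx')
  obtain ⟨U, V, hU, hV, hqU, hqV, hUV⟩ := normal_separation h1 h2 hd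
  refine ⟨sat s U, sat s V, isOpen_sat hs hU, isOpen_sat hs hV, ?_, ?_, ?_⟩
  · rw [mem_sat]; intro x hx; exact hqU hx
  · rw [mem_sat]; intro x hx; exact hqV hx
  · rw [Set.disjoint_left]
    intro p hp hp'
    obtain ⟨x, rfl⟩ := Quotient.exists_rep p
    exact Set.disjoint_left.1 hUV (mem_sat.1 hp x rfl) (mem_sat.1 hp' x rfl)

lemma secondCountable_quot [SecondCountableTopology X]
    (hs : IsClosed {p : X × X | s p.1 p.2}) : SecondCountableTopology (Quotient s) := by
  have := t2_quot hs
  have hcont : Continuous (Quotient.mk s) := continuous_quotient_mk'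
  let B := TopologicalSpace.countableBasis X
  have hB := TopologicalSpace.isBasis_countableBasis X
  let F : Set (Set (Set X)) := {F | F.Finite ∧ F ⊆ B}
  have hF : F.Countable :=
    Set.countable_ofPred_finite_subset (TopologicalSpace.countable_countableBasis X)
  refine TopologicalSpace.IsTopologicalBasis.secondCountableTopology
    (b := (fun F => sat s (⋃₀ F)) '' F) ?_ (hF.image _)
  refine TopologicalSpace.isTopologicalBasis_of_isOpen_of_nhds ?_ ?_
  · rintro _ ⟨F', hF', rfl⟩
    exact isOpen_sat hs (isOpen_sUnion fun t ht => hB.isOpen (hF'.2 ht))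
  · intro q W hq hW
    have hc : IsCompact (Quotient.mk s ⁻¹' {q}) := (isClosed_singleton.preimage hcont).isCompact
    have hsub : Quotient.mk s ⁻¹' {q} ⊆ Quotient.mk s ⁻¹' W := by
      intro x hx
      simp only [mem_preimage, mem_singleton_iff] at hx ⊢
      rw [hx]; exact hq
    have hWo : IsOpen (Quotient.mk s ⁻¹' W) := hW.preimage hcont
    choose! b hbB hxb hbW using fun x (hx : x ∈ Quotient.mk s ⁻¹' {q}) =>
      hB.exists_subset_of_mem_open (hsub hx) hWo
    obtain ⟨t, htc⟩ := hc.elim_nhds_subcover' (fun x _ => b x)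
      (fun x hx => (hB.isOpen (hbB x hx)).mem_nhds (hxb x hx))
    refine ⟨sat s (⋃₀ ((fun x : ↥(Quotient.mk s ⁻¹' {q}) => b x) '' (t : Set _))),
      ⟨_, ⟨?_, ?_⟩, rfl⟩, ?_, ?_⟩
    · exact (Finset.finite_toSet _).image _
    · rintro _ ⟨x, _, rfl⟩
      exact hbB x x.2
    · rw [mem_sat]
      intro x hx
      have := htc hx
      simp only [mem_iUnion] at this
      obtain ⟨y, hy, hxy⟩ := this
      exact ⟨_, ⟨y, hy, rfl⟩, hxy⟩
    · intro p hp
      obtain ⟨x, rfl⟩ := Quotient.exists_rep p
      obtain ⟨_, ⟨y, hy, rfl⟩, hxy⟩ := mem_sat.1 hp x rfl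
      exact hbW y y.2 hxy

lemma metrizable_quot [SecondCountableTopology X]
    (hs : IsClosed {p : X × X | s p.1 p.2}) : TopologicalSpace.MetrizableSpace (Quotient s) := by
  have := t2_quot hs
  have := secondCountable_quot hs
  infer_instance

end quot

end Pool.Agent.H31
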