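import Mathlib
import Pool.Agent.H31.YSpace
import Pool.Agent.H31.Approx
import Pool.Agent.H31.Bump
import Pool.Agent.H31.Quot

open Set Topology Filter

namespace Pool.Agent.H31

/-- Cantor space -/
abbrev CC := ℕ → Bool

lemma exists_cross : ∃ e : CC → ℝ, Continuous e ∧ Function.Injective e ∧
    ∀ x, e x ∈ Icc (-1:ℝ) 1 ∧ Irrational (e x) := by
  have hc : (range ((↑) : ℚ → ℝ)).Countable := countable_range _
  have hm : MeasurableSet (Icc (-1:ℝ) 1 \ range ((↑) : ℚ → ℝ)) :=
    measurableSet_Icc.diff hc.measurableSet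
  have hpos : 0 < MeasureTheory.volume (Icc (-1:ℝ) 1 \ range ((↑) : ℚ → ℝ)) := by
    rw [MeasureTheory.measure_sdiff_null (hc.measure_zero _)]
    simp
  obtain ⟨K, hKA, hK, hKpos⟩ := hm.exists_lt_isCompact hpos
  have hnc : ¬ K.Countable := by
    intro h
    rw [h.measure_zero] at hKpos
    exact lt_irrefl _ hKpos
  obtain ⟨f, hf, hfc, hfi⟩ := hK.isClosed.exists_nat_bool_injection_of_not_countable hnc
  refine ⟨f, hfc, hfi, fun x => ?_⟩
  have := hKA (hf ⟨x, rfl⟩)
  exact ⟨this.1, this.2⟩

/-- the crossing embedding -/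
noncomputable def ee : CC → ℝ := Classical.choose exists_cross

lemma ee_cont : Continuous ee := (Classical.choose_spec exists_cross).1
lemma ee_inj : Function.Injective ee := (Classical.choose_spec exists_cross).2.1
lemma ee_mem (x : CC) : ee x ∈ Icc (-1:ℝ) 1 := ((Classical.choose_spec exists_cross).2.2 x).1
lemma ee_irr (x : CC) : Irrational (ee x) := ((Classical.choose_spec exists_cross).2.2 x).2

/-- pointwise addition mod 2 -/
def xr (x x' : CC) : CC := fun i => xor (x i) (x' i)

lemma xr_comm (x x' : CC) : xr x x' = xr x' x := by funext i; exact Bool.xor_comm _ _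

lemma xr_eq_false {x x' : CC} {i : ℕ} : xr x x' i = false ↔ x i = x' i := by
  unfold xr; cases x i <;> cases x' i <;> simp

lemma xr_self (x : CC) (i : ℕ) : xr x x i = false := xr_eq_false.2 rfl

lemma xr_tri (x x' x'' : CC) : xr x x'' = xr (xr x x') (xr x' x'') := by
  funext i; unfold xr; cases x i <;> cases x' i <;> cases x'' i <;> rfl

lemma xr_cancel (x z : CC) : xr x (xr x z) = z := by
  funext i; unfold xr; cases x i <;> cases z i <;> rfl

lemma xr_cont : Continuous (fun p : CC × CC => xr p.1 p.2) := by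
  refine continuous_pi fun i => ?_
  have : Continuous (fun q : Bool × Bool => xor q.1 q.2) := continuous_of_discreteTopology
  have h1 : Continuous (fun p : CC × CC => (p.1 i, p.2 i)) := by fun_prop
  exact this.comp h1

/-- `z` is a crossing vector at `y` -/
def cross (y : Pt) (z : CC) : Prop :=
  (∀ i, z i = false) ∨
    ∃ σ : List ℚ, rad σ y = 0 ∧ y σ = ee z ∧ ∀ i < Encodable.encode σ, z i = false

lemma cross_unique {y : Pt} {z z' : CC} (h : cross y z) (h' : cross y z') :
    (∀ i, z i = false) ∨ (∀ i, z' i = false) ∨ z = z' := by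
  rcases h with h | ⟨σ, h1, h2, h3⟩
  · exact Or.inl h
  rcases h' with h' | ⟨σ', h1', h2', h3'⟩
  · exact Or.inr (Or.inl h')
  right; right
  have : σ = σ' := eq_of_irrational h1 h1' (by rw [h2]; exact ee_irr _)
    (by rw [h2']; exact ee_irr _)
  subst this
  exact ee_inj (h2.symm.trans h2')

lemma cross_add {y : Pt} {z z' : CC} (h : cross y z) (h' : cross y z') : cross y (xr z z') := by
  rcases cross_unique h h' with h0 | h0 | h0
  · have : xr z z' = z' := by
      funext i; unfold xr; rw [h0 i]; simp
    rw [this]; exact h'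
  · have : xr z z' = z := by
      funext i; unfold xr; rw [h0 i]; simp
    rw [this]; exact h
  · subst h0; left; exact xr_self z

/-- the equivalence relation -/
def st : Setoid (CC × YY) where
  r p p' := p.2 = p'.2 ∧ cross p.2.1 (xr p.1 p'.1)
  iseqv := {
    refl := fun p => ⟨rfl, Or.inl (xr_self _)⟩
    symm := fun {p q} h => ⟨h.1.symm, by rw [← h.1, xr_comm]; exact h.2⟩
    trans := fun {p q r} h h' => ⟨h.1.trans h'.1, by
      rw [xr_tri p.1 q.1 r.1]
      exact cross_add h.2 (by rw [h.1]; exact h'.2)⟩ }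

lemma st_iff {p p' : CC × YY} : st p p' ↔ p.2 = p'.2 ∧ cross p.2.1 (xr p.1 p'.1) := Iff.rfl

instance : CompactSpace YY := isCompact_iff_compactSpace.1 isCompact_YY

lemma st_closed : IsClosed {p : (CC × YY) × (CC × YY) | st p.1 p.2} := by
  -- closed pieces
  have hpiece : ∀ σ : List ℚ, IsClosed {p : (CC × YY) × (CC × YY) |
      rad σ p.1.2.1 = 0 ∧ p.1.2.1 σ = ee (xr p.1.1 p.2.1) ∧
        ∀ i < Encodable.encode σ, xr p.1.1 p.2.1 i = false} := by
    intro σ
    have c1 : Continuous fun p : (CC × YY) × (CC × YY) => xr p.1.1 p.2.1 :=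
      xr_cont.comp ((continuous_fst.comp continuous_fst).prodMk
        (continuous_fst.comp continuous_snd))
    have c2 : Continuous fun p : (CC × YY) × (CC × YY) => p.1.2.1 :=
      continuous_subtype_val.comp (continuous_snd.comp continuous_fst)
    have h1 : IsClosed {p : (CC × YY) × (CC × YY) | rad σ p.1.2.1 = 0} :=
      isClosed_singleton.preimage ((continuous_rad σ).comp c2)
    have h2 : IsClosed {p : (CC × YY) × (CC × YY) | p.1.2.1 σ = ee (xr p.1.1 p.2.1)} :=
      isClosed_eq ((continuous_apply σ).comp c2) (ee_cont.comp c1)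
    have h3 : IsClosed {p : (CC × YY) × (CC × YY) |
        ∀ i < Encodable.encode σ, xr p.1.1 p.2.1 i = false} := by
      simp only [Set.ofPred_forall]
      refine isClosed_iInter fun i => isClosed_iInter fun _ => ?_
      exact isClosed_eq ((continuous_apply i).comp c1) continuous_const
    exact h1.inter (h2.inter h3)
  have heq : IsClosed {p : (CC × YY) × (CC × YY) | p.1.2 = p.2.2} :=
    isClosed_eq (continuous_snd.comp continuous_fst) (continuous_snd.comp continuous_snd)
  rw [← isOpen_compl_iff, isOpen_iff_mem_nhds]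
  rintro ⟨⟨x, y⟩, ⟨x', y'⟩⟩ hp
  simp only [mem_compl_iff, mem_ofPred_eq, st_iff, not_and] at hp
  by_cases hy : y = y'
  · subst hy
    have hp := hp rfl
    have hne : ∃ i, xr x x' i = true := by
      by_contra hcon
      push Not at hcon
      exact hp (Or.inl fun i => by simpa using hcon i)
    obtain ⟨i, hi⟩ := hne
    have hfin : {σ : List ℚ | Encodable.encode σ ≤ i}.Finite :=
      (Set.finite_Iic i).preimage (Encodable.encode_injective.injOn)
    have hcl : IsClosed (⋃ σ ∈ {σ : List ℚ | Encodable.encode σ ≤ i},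
        {p : (CC × YY) × (CC × YY) | rad σ p.1.2.1 = 0 ∧ p.1.2.1 σ = ee (xr p.1.1 p.2.1) ∧
        ∀ i < Encodable.encode σ, xr p.1.1 p.2.1 i = false}) :=
      hfin.isClosed_biUnion fun σ _ => hpiece σ
    have hopen : IsOpen {p : (CC × YY) × (CC × YY) | xr p.1.1 p.2.1 i = true} := by
      have c1 : Continuous fun p : (CC × YY) × (CC × YY) => xr p.1.1 p.2.1 i :=
        (continuous_apply i).comp (xr_cont.comp ((continuous_fst.comp continuous_fst).prodMk
        (continuous_fst.comp continuous_snd)))
      exact (isOpen_discrete {true}).preimage c1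
    have hmem : (((x, y), (x', y)) : (CC × YY) × (CC × YY)) ∈
        {p : (CC × YY) × (CC × YY) | xr p.1.1 p.2.1 i = true} ∩
        (⋃ σ ∈ {σ : List ℚ | Encodable.encode σ ≤ i},
        {p : (CC × YY) × (CC × YY) | rad σ p.1.2.1 = 0 ∧ p.1.2.1 σ = ee (xr p.1.1 p.2.1) ∧
        ∀ i < Encodable.encode σ, xr p.1.1 p.2.1 i = false})ᶜ := by
      refine ⟨hi, ?_⟩
      simp only [mem_compl_iff, mem_iUnion, not_exists]
      intro σ _ h
      exact hp (Or.inr ⟨σ, h⟩)
    filter_upwards [(hopen.inter hcl.isOpen_compl).mem_nhds hmem] with p hp'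
    rintro ⟨h1, h2⟩
    rcases h2 with h2 | ⟨σ, h3, h4, h5⟩
    · have := hp'.1
      simp only [mem_ofPred_eq] at this
      rw [h2 i] at this
      exact absurd this (by simp)
    · apply hp'.2
      simp only [mem_iUnion]
      refine ⟨σ, ?_, h3, h4, h5⟩
      by_contra hlt
      simp only [not_le] at hlt
      have h6 := hp'.1
      simp only [mem_ofPred_eq] at h6
      rw [h5 i hlt] at h6
      exact absurd h6 (by simp)
  · have : (((x, y), (x', y')) : (CC × YY) × (CC × YY)) ∈
      {p : (CC × YY) × (CC × YY) | p.1.2 = p.2.2}ᶜ := hy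
    filter_upwards [heq.isOpen_compl.mem_nhds this] with p hp'
    rintro ⟨h1, _⟩
    exact hp' h1

/-- The counterexample space. -/
def KK : Type := Quotient st

instance : TopologicalSpace KK := inferInstanceAs (TopologicalSpace (Quotient st))
instance : CompactSpace KK := inferInstanceAs (CompactSpace (Quotient st))
instance : T2Space KK := t2_quot st_closed
instance : TopologicalSpace.MetrizableSpace KK := metrizable_quot st_closed

/-- quotient map -/
def pr (x : CC) (y : YY) : KK := Quotient.mk st (x, y)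

lemma pr_cont : Continuous (fun p : CC × YY => pr p.1 p.2) := continuous_quotient_mk'

lemma pr_surj (k : KK) : ∃ x y, pr x y = k := by
  obtain ⟨⟨x, y⟩, h⟩ := Quotient.exists_rep k
  exact ⟨x, y, h⟩

lemma pr_eq {x x' : CC} {y y' : YY} : pr x y = pr x' y' ↔ y = y' ∧ cross y.1 (xr x x') :=
  ⟨fun h => Quotient.exact h, fun h => Quotient.sound h⟩

/-- projection to `Y` -/
def py : KK → Pt := Quotient.lift (fun p : CC × YY => p.2.1) (fun p q h => by
  have : p.2 = q.2 := h.1
  rw [this])

lemma py_pr (x : CC) (y : YY) : py (pr x y) = y.1 := rfl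

lemma py_cont : Continuous py :=
  Continuous.quotient_lift (continuous_subtype_val.comp continuous_snd) _

lemma py_mem (k : KK) : py k ∈ YY := by
  obtain ⟨x, y, rfl⟩ := pr_surj k
  exact y.2

end Pool.Agent.H31
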