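import Mathlib
import Pool.Agent.H31.KSpace

open Set Topology Filter

namespace Pool.Agent.H31

lemma isClopen_cyl (N : ℕ) (x : CC) : IsClopen {x' : CC | ∀ i < N, x' i = x i} := by
  have : {x' : CC | ∀ i < N, x' i = x i} = ⋂ i ∈ Finset.range N, {x' : CC | x' i = x i} := by
    ext x'; simp
  rw [this]
  refine isClopen_biInter_finset fun i _ => ?_
  exact (isClopen_discrete {x i}).preimage (continuous_apply i)

lemma exists_cross_vec (y : Pt) : ∃ z0 : CC, cross y z0 ∧ ∀ z, cross y z →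
    (∀ i, z i = false) ∨ z = z0 := by
  by_cases h : ∃ z0, cross y z0 ∧ ∃ i, z0 i = true
  · obtain ⟨z0, h0, i, hi⟩ := h
    refine ⟨z0, h0, fun z hz => ?_⟩
    rcases cross_unique hz h0 with h | h | h
    · exact Or.inl h
    · rw [h i] at hi; exact absurd hi (by simp)
    · exact Or.inr h
  · push Not at h
    refine ⟨fun _ => false, Or.inl fun _ => rfl, fun z hz => Or.inl fun i => ?_⟩
    simpa using h z hz i

lemma isClosed_image_pr {A : Set CC} {B : Set YY} (hA : IsClosed A) (hB : IsClosed B) :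
    IsClosed ((fun p : CC × YY => pr p.1 p.2) '' (A ×ˢ B)) :=
  ((hA.prod hB).isCompact.image pr_cont).isClosed

lemma fiber_subsingleton {D : Set KK} (hD : IsPreconnected D) {y : Pt}
    (h : ∀ k ∈ D, py k = y) : D.Subsingleton := by
  intro k hk k' hk'
  by_contra hne
  obtain ⟨x, y1, rfl⟩ := pr_surj k
  obtain ⟨x', y2, rfl⟩ := pr_surj k'
  have hy1 : y1.1 = y := h _ hk
  have hy2 : y2.1 = y := h _ hk'
  have hy12 : y1 = y2 := Subtype.ext (hy1.trans hy2.symm)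
  subst hy12
  have hnc : ¬ cross y1.1 (xr x x') := fun hc => hne (pr_eq.2 ⟨rfl, hc⟩)
  obtain ⟨z0, hz0, hz0u⟩ := exists_cross_vec y1.1
  have hi0 : ∃ i, x' i ≠ x i := by
    by_contra hcon
    push Not at hcon
    exact hnc (Or.inl fun i => xr_eq_false.2 (hcon i).symm)
  have hi1 : ∃ i, x' i ≠ xr x z0 i := by
    by_contra hcon
    push Not at hcon
    have : x' = xr x z0 := funext hcon
    rw [this, xr_cancel] at hnc
    exact hnc hz0
  obtain ⟨i0, hi0⟩ := hi0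
  obtain ⟨i1, hi1⟩ := hi1
  let N := max i0 i1 + 1
  let A : Set CC := {x'' | ∀ i < N, x'' i = x i} ∪ {x'' | ∀ i < N, x'' i = xr x z0 i}
  have hAc : IsClopen A := (isClopen_cyl N x).union (isClopen_cyl N (xr x z0))
  have hxA : x ∈ A := Or.inl fun i _ => rfl
  have hx'A : x' ∉ A := by
    rintro (h | h)
    · exact hi0 (h i0 (by simp [N]))
    · exact hi1 (h i1 (by simp [N]))
  have hinv : ∀ a b, a ∈ A → cross y1.1 (xr a b) → b ∈ A := by
    intro a b ha hab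
    rcases hz0u _ hab with h0 | h0
    · have : b = a := by funext i; exact (xr_eq_false.1 (h0 i)).symm
      rw [this]; exact ha
    · have hb : b = xr a z0 := by rw [← h0, xr_cancel]
      rcases ha with ha | ha
      · right
        intro i hi
        rw [hb]; unfold xr; rw [ha i hi]
      · left
        intro i hi
        rw [hb]; unfold xr; rw [ha i hi]; unfold xr
        cases x i <;> cases z0 i <;> rfl
  have hT := isClosed_image_pr hAc.1 (isClosed_singleton (x := y1))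
  have hT' := isClosed_image_pr hAc.2.isClosed_compl (isClosed_singleton (x := y1))
  obtain ⟨k, _, ⟨⟨a, ya⟩, ⟨haA, hya⟩, hka⟩, ⟨⟨b, yb⟩, ⟨hbA, hyb⟩, hkb⟩⟩ :=
    isPreconnected_closed_iff.1 hD _ _ hT hT' (by
      intro k hk
      obtain ⟨x3, y3, rfl⟩ := pr_surj k
      have hy3 : y3 = y1 := Subtype.ext ((h _ hk).trans hy1.symm)
      subst hy3
      by_cases hx3 : x3 ∈ A
      · left; exact ⟨(x3, y3), ⟨hx3, rfl⟩, rfl⟩
      · right; exact ⟨(x3, y3), ⟨hx3, rfl⟩, rfl⟩)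
      ⟨pr x y1, hk, ⟨(x, y1), ⟨hxA, rfl⟩, rfl⟩⟩ ⟨pr x' y1, hk', ⟨(x', y1), ⟨hx'A, rfl⟩, rfl⟩⟩
  simp only [mem_singleton_iff] at hya hyb hka hkb haA hbA
  subst hya
  rw [← hkb] at hka
  have := pr_eq.1 hka
  exact hbA (hinv a b haA this.2)

lemma gap1 (σ τ : List ℚ) : ∃ r > 0, ∀ y ∈ YY, ∀ z : CC, rad τ y = 0 → y τ = ee z →
    rad σ y = 0 ∨ r ≤ rad σ y := by
  by_cases h : ∃ y ∈ YY, ∃ z : CC, rad τ y = 0 ∧ y τ = ee z ∧ rad σ y = 0
  · obtain ⟨y, hy, z, h1, h2, h3⟩ := h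
    have hs : σ <:+ τ := end_of_irrational h1 h3 (by rw [h2]; exact ee_irr z)
    exact ⟨1, one_pos, fun y' _ z' h1' _ => Or.inl (rad_zero_of_suffix hs h1')⟩
  · push Not at h
    have hE : IsCompact (YY ∩ ({y | rad τ y = 0} ∩ {y | y τ ∈ range ee})) := by
      refine isCompact_YY.inter_right (IsClosed.inter ?_ ?_)
      · exact isClosed_singleton.preimage (continuous_rad τ)
      · exact (isCompact_range ee_cont).isClosed.preimage (continuous_apply τ)
    rcases (YY ∩ ({y | rad τ y = 0} ∩ {y | y τ ∈ range ee})).eq_empty_or_nonempty with h0 | h0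
    · refine ⟨1, one_pos, fun y hy z h1 h2 => ?_⟩
      exfalso
      have : y ∈ (YY ∩ ({y | rad τ y = 0} ∩ {y | y τ ∈ range ee})) :=
        ⟨hy, h1, ⟨z, h2.symm⟩⟩
      rw [h0] at this
      exact this
    · obtain ⟨m, ⟨hmY, hm1, ⟨z, hmz⟩⟩, hmin⟩ :=
        hE.exists_isMinOn h0 (continuous_rad σ).continuousOn
      refine ⟨rad σ m, ?_, fun y hy z h1 h2 => Or.inr (hmin ⟨hy, h1, ⟨z, h2.symm⟩⟩)⟩
      exact lt_of_le_of_ne (rad_nonneg _ _) (Ne.symm (h m hmY z hm1 hmz.symm))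

lemma gap (σ : List ℚ) (N : ℕ) : ∃ r > 0, ∀ τ : List ℚ, Encodable.encode τ < N →
    ∀ y ∈ YY, ∀ z : CC, rad τ y = 0 → y τ = ee z → rad σ y = 0 ∨ r ≤ rad σ y := by
  induction N with
  | zero => exact ⟨1, one_pos, fun τ h => absurd h (Nat.not_lt_zero _)⟩
  | succ N ih =>
    obtain ⟨r, hr, h⟩ := ih
    by_cases hN : ∃ τ : List ℚ, Encodable.encode τ = N
    · obtain ⟨τ0, hτ0⟩ := hN
      obtain ⟨r0, hr0, h0⟩ := gap1 σ τ0
      refine ⟨min r r0, lt_min hr hr0, fun τ hτ y hy z h1 h2 => ?_⟩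
      rcases Nat.lt_succ_iff_lt_or_eq.1 hτ with hlt | heq
      · rcases h τ hlt y hy z h1 h2 with h3 | h3
        · exact Or.inl h3
        · exact Or.inr ((min_le_left _ _).trans h3)
      · have : τ = τ0 := Encodable.encode_injective (heq.trans hτ0.symm)
        subst this
        rcases h0 y hy z h1 h2 with h3 | h3
        · exact Or.inl h3
        · exact Or.inr ((min_le_right _ _).trans h3)
    · refine ⟨r, hr, fun τ hτ => h τ ?_⟩
      rcases Nat.lt_succ_iff_lt_or_eq.1 hτ with hlt | heq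
      · exact hlt
      · exact absurd ⟨τ, heq⟩ hN

lemma zone (σ : List ℚ) (N : ℕ) : ∃ r > 0, ∀ y ∈ YY, 0 < rad σ y → rad σ y < r →
    ∀ z, cross y z → ∀ i < N, z i = false := by
  obtain ⟨r, hr, h⟩ := gap σ N
  refine ⟨r, hr, fun y hy h0 h1 z hz i hi => ?_⟩
  rcases hz with hz | ⟨τ, h2, h3, h4⟩
  · exact hz i
  · rcases Nat.lt_or_ge (Encodable.encode τ) N with hlt | hge
    · rcases h τ hlt y hy z h2 h3 with h5 | h5
      · exact absurd h5 h0.ne'
      · exact absurd h1 (not_lt.2 h5)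
    · exact h4 i (lt_of_lt_of_le hi hge)

/-- auxiliary notion: `D` contains a crossing piece of level `N` in the zone of `x` -/
def Good (D : Set KK) (σ : List ℚ) (x : CC) (N : ℕ) : Prop :=
  ∃ R ⊆ D, IsPreconnected R ∧ (∀ k ∈ R, 0 < rad σ (py k) ∧ rad σ (py k) < 1 / ((N:ℝ) + 1)) ∧
    (∀ z ∈ Icc (-1:ℝ) 1, ∃ k ∈ R, py k σ = z) ∧
    ∀ k ∈ R, ∀ x' y', pr x' y' = k → ∀ i < N, x' i = x i

lemma Good.mono {D : Set KK} {σ : List ℚ} {x x' : CC} {N M : ℕ} (h : Good D σ x N)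
    (hM : M ≤ N) (hx : ∀ i < M, x i = x' i) : Good D σ x' M := by
  obtain ⟨R, hRD, hR, h1, h2, h3⟩ := h
  refine ⟨R, hRD, hR, fun k hk => ⟨(h1 k hk).1, (h1 k hk).2.trans_le ?_⟩, h2,
    fun k hk a y ha i hi => (h3 k hk a y ha i (hi.trans_le hM)).trans (hx i hi)⟩
  apply one_div_le_one_div_of_le (by positivity)
  have : (M:ℝ) ≤ N := by exact_mod_cast hM
  linarith

lemma exists_good {D : Set KK} (hDc : IsCompact D) (hD : IsPreconnected D) {q : ℚ}
    {μ : List ℚ} {k0 k1 : KK} (hk0 : k0 ∈ D) (hk1 : k1 ∈ D)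
    (h0 : rad (q :: μ) (py k0) = 0) (h1 : 0 < rad (q :: μ) (py k1)) (N : ℕ) :
    ∃ x, Good D (q :: μ) x N := by
  obtain ⟨r, hr, hz⟩ := zone (q :: μ) N
  set b : ℝ := min (min (r/2) (1 / ((N:ℝ) + 2))) (rad (q :: μ) (py k1)) with hb
  have hb0 : 0 < b := by
    rw [hb]; exact lt_min (lt_min (by linarith) (by positivity)) h1
  have hbr : b < r := by
    have : b ≤ r/2 := (min_le_left _ _).trans (min_le_left _ _)
    linarith
  have hbN : b < 1 / ((N:ℝ) + 1) := by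
    have h2 : b ≤ 1 / ((N:ℝ) + 2) := (min_le_left _ _).trans (min_le_right _ _)
    refine h2.trans_lt ?_
    apply one_div_lt_one_div_of_lt (by positivity)
    linarith
  have hb1 : b ≤ rad (q :: μ) (py k1) := min_le_right _ _
  set a : ℝ := (b⁻¹ + 2 * Real.pi)⁻¹ with ha
  have hbi : 0 < b⁻¹ := inv_pos.2 hb0
  have hpi := Real.two_pi_pos
  have ha0 : 0 < a := by rw [ha]; positivity
  have hab : a < b := by
    rw [ha, inv_lt_comm₀ (by positivity) hb0]
    linarith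
  have hρ : Continuous fun k : KK => rad (q :: μ) (py k) := (continuous_rad _).comp py_cont
  obtain ⟨R, hRD, hR, hRab, ⟨ka, hka, hka'⟩, ⟨kb, hkb, hkb'⟩⟩ :=
    exists_crossing hDc hD hρ hab hk0 hk1 (by rw [h0]; exact ha0.le) hb1
  have hcov : ∀ z ∈ Icc (-1:ℝ) 1, ∃ k ∈ R, py k (q :: μ) = z := by
    intro z hz
    obtain ⟨θ, hθ, hθz⟩ := Real.sin_periodic.exists_mem_Ico Real.two_pi_pos (Real.arcsin z) b⁻¹
    rw [Real.sin_arcsin hz.1 hz.2] at hθz
    have hθ0 : 0 < θ := hbi.trans_le hθ.1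
    have hmem : θ⁻¹ ∈ Icc a b := by
      constructor
      · rw [ha]; exact inv_anti₀ hθ0 hθ.2.le
      · rw [inv_le_comm₀ hθ0 hb0]; exact hθ.1
    have hord := (hR.image _ hρ.continuousOn).ordConnected
    obtain ⟨k, hk, hk'⟩ := hord.out ⟨ka, hka, hka'⟩ ⟨kb, hkb, hkb'⟩ hmem
    refine ⟨k, hk, ?_⟩
    have hk'' : rad (q :: μ) (py k) = θ⁻¹ := hk'
    rw [(py_mem k).2 q μ (by rw [hk'']; exact (inv_pos.2 hθ0).ne'), hk'', inv_inv, hθz]
  have hzone : ∀ i < N, ∃ c : Bool, ∀ k ∈ R, ∀ x' y', pr x' y' = k → x' i = c := by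
    intro i hi
    have hclB : IsClosed {y : YY | a ≤ rad (q :: μ) y.1 ∧ rad (q :: μ) y.1 ≤ b} := by
      have hc : Continuous fun y : YY => rad (q :: μ) y.1 :=
        (continuous_rad _).comp continuous_subtype_val
      exact (isClosed_le continuous_const hc).inter (isClosed_le hc continuous_const)
    have hclA : ∀ c : Bool, IsClosed {x : CC | x i = c} := fun c =>
      isClosed_eq (continuous_apply i) continuous_const
    have hT := fun c => isClosed_image_pr (hclA c) hclB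
    have key : ∀ x x' : CC, ∀ y y' : YY, a ≤ rad (q :: μ) y.1 → rad (q :: μ) y.1 ≤ b →
        pr x y = pr x' y' → x i = x' i := by
      intro x x' y y' h1 h2 h3
      have h4 := pr_eq.1 h3
      exact xr_eq_false.1 (hz y.1 y.2 (ha0.trans_le h1) (h2.trans_lt hbr) _ h4.2 i hi)
    have hsub := isPreconnected_iff_subset_of_disjoint_closed.1 hR _ _ (hT true) (hT false) (by
      intro k hk
      obtain ⟨x, y, rfl⟩ := pr_surj k
      have h2 := hRab _ hk
      rw [py_pr] at h2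
      cases hx : x i
      · right; exact ⟨(x, y), ⟨hx, h2⟩, rfl⟩
      · left; exact ⟨(x, y), ⟨hx, h2⟩, rfl⟩) (by
      rw [Set.eq_empty_iff_forall_notMem]
      rintro k ⟨_, ⟨⟨x1, y1⟩, ⟨hx1, hy1⟩, h1⟩, ⟨⟨x2, y2⟩, ⟨hx2, hy2⟩, h2⟩⟩
      simp only [mem_ofPred_eq] at hx1 hx2 hy1 hy2 h1 h2
      have := key x1 x2 y1 y2 hy1.1 hy1.2 (h1.trans h2.symm)
      rw [hx1, hx2] at this
      exact absurd this (by simp))
    rcases hsub with hsub | hsub
    · refine ⟨true, fun k hk x' y' hk' => ?_⟩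
      obtain ⟨⟨x1, y1⟩, ⟨hx1, hy1⟩, h1⟩ := hsub hk
      simp only [mem_ofPred_eq] at hx1 hy1 h1
      rw [← hx1]
      exact (key x1 x' y1 y' hy1.1 hy1.2 (h1.trans hk'.symm)).symm
    · refine ⟨false, fun k hk x' y' hk' => ?_⟩
      obtain ⟨⟨x1, y1⟩, ⟨hx1, hy1⟩, h1⟩ := hsub hk
      simp only [mem_ofPred_eq] at hx1 hy1 h1
      rw [← hx1]
      exact (key x1 x' y1 y' hy1.1 hy1.2 (h1.trans hk'.symm)).symm
  choose! c hc using hzone
  refine ⟨c, R, hRD, hR, fun k hk => ⟨ha0.trans_le (hRab k hk).1, (hRab k hk).2.trans_lt hbN⟩,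
    hcov, fun k hk x' y' hk' i hi => hc i hi k hk x' y' hk'⟩

lemma exists_good_all {D : Set KK} (hDc : IsCompact D) (hD : IsPreconnected D) {q : ℚ}
    {μ : List ℚ} {k0 k1 : KK} (hk0 : k0 ∈ D) (hk1 : k1 ∈ D)
    (h0 : rad (q :: μ) (py k0) = 0) (h1 : 0 < rad (q :: μ) (py k1)) :
    ∃ x, ∀ N, Good D (q :: μ) x N := by
  choose xs hxs using fun N => exists_good hDc hD hk0 hk1 h0 h1 N
  obtain ⟨x, φ, hφ, hlim⟩ := CompactSpace.tendsto_subseq xs
  refine ⟨x, fun N => ?_⟩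
  have hev : ∀ᶠ k in atTop, xs (φ k) ∈ {x' : CC | ∀ i < N, x' i = x i} :=
    hlim.eventually ((isClopen_cyl N x).isOpen.mem_nhds (fun i _ => rfl))
  obtain ⟨k, hk1, hk2⟩ := (hev.and (eventually_ge_atTop N)).exists
  exact (hxs (φ k)).mono (hk2.trans (hφ.id_le k)) hk1

/-- Key proposition: a nondegenerate continuum contains a full piece. -/
lemma contains_piece {D : Set KK} (hDc : IsCompact D) (hD : IsPreconnected D)
    (hDn : D.Nontrivial) : ∃ (σ : List ℚ) (x : CC), (∃ y ∈ YY, rad σ y = 0) ∧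
      ∀ y : YY, rad σ y.1 = 0 → pr x y ∈ D := by
  -- a coordinate which is not constant
  have hne : ∃ μ : List ℚ, ∃ k ∈ D, ∃ k' ∈ D, py k μ ≠ py k' μ := by
    by_contra hcon
    push Not at hcon
    obtain ⟨k, hk, k', hk', hkk'⟩ := hDn
    refine hkk' (fiber_subsingleton hD (y := py k) ?_ hk hk')
    intro k'' hk''
    funext μ
    exact hcon μ k'' hk'' k hk
  obtain ⟨μ, hμ, hmin⟩ : ∃ μ : List ℚ, (∃ k ∈ D, ∃ k' ∈ D, py k μ ≠ py k' μ) ∧
      ∀ ν : List ℚ, ν.length < μ.length → ∀ k ∈ D, ∀ k' ∈ D, py k ν = py k' ν := by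
    let S : Set (List ℚ) := {μ | ∃ k ∈ D, ∃ k' ∈ D, py k μ ≠ py k' μ}
    have hS : S.Nonempty := hne
    have hwf : WellFounded (fun a b : List ℚ => a.length < b.length) :=
      (measure List.length).wf
    refine ⟨hwf.min S hS, hwf.min_mem S hS, fun ν hν k hk k' hk' => ?_⟩
    by_contra hcon
    exact hwf.not_lt_min S (show ν ∈ S from ⟨k, hk, k', hk', hcon⟩) hν
  have hrc : ∀ ν : List ℚ, ν.length ≤ μ.length → ∀ k ∈ D, ∀ k' ∈ D,
      rad ν (py k) = rad ν (py k') := by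
    intro ν
    induction ν with
    | nil => intro _ k _ k' _; rfl
    | cons p ν ih =>
      intro hν k hk k' hk'
      have h' : ν.length < μ.length := by simpa using hν
      rw [rad_cons, rad_cons, ih h'.le k hk k' hk', hmin ν h' k hk k' hk']
  obtain ⟨k, hk, k', hk', hkk'⟩ := hμ
  have hr0 : ∀ k ∈ D, rad μ (py k) = 0 := by
    intro k2 hk2
    by_contra hcon
    cases μ with
    | nil => exact hcon rfl
    | cons p μ =>
      have h1 : rad (p :: μ) (py k) = rad (p :: μ) (py k2) := hrc _ le_rfl k hk k2 hk2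
      have h2 : rad (p :: μ) (py k') = rad (p :: μ) (py k2) := hrc _ le_rfl k' hk' k2 hk2
      apply hkk'
      rw [(py_mem k).2 p μ (by rw [h1]; exact hcon), (py_mem k').2 p μ (by rw [h2]; exact hcon),
        h1, h2]
  -- wlog order
  wlog hlt : py k μ < py k' μ generalizing k k'
  · exact this k' hk' k hk hkk'.symm (lt_of_le_of_ne (not_lt.1 hlt) hkk'.symm)
  obtain ⟨q, hq1, hq2⟩ := exists_rat_btwn hlt
  have hcμ : Continuous fun k : KK => py k μ := (continuous_apply μ).comp py_cont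
  have hord := (hD.image _ hcμ.continuousOn).ordConnected
  obtain ⟨k0, hk0, hk0'⟩ := hord.out ⟨k, hk, rfl⟩ ⟨k', hk', rfl⟩ ⟨hq1.le, hq2.le⟩
  have h0 : rad (q :: μ) (py k0) = 0 := rad_cons_eq_zero.2 ⟨hr0 k0 hk0, hk0'⟩
  have h1 : 0 < rad (q :: μ) (py k') := by
    rw [rad_cons, hr0 k' hk', zero_add, abs_pos]
    linarith
  obtain ⟨x, hx⟩ := exists_good_all hDc hD hk0 hk' h0 h1
  choose R hRD hR hRr hRc hRx using hx
  refine ⟨q :: μ, x, ⟨py k0, py_mem k0, h0⟩, fun y hy => ?_⟩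
  -- the closure argument
  have hDcl : IsClosed ((fun p : CC × YY => pr p.1 p.2) ⁻¹' D) := hDc.isClosed.preimage pr_cont
  by_contra hcon
  have hcon' : (x, y) ∈ ((fun p : CC × YY => pr p.1 p.2) ⁻¹' D)ᶜ := hcon
  have hnh := hDcl.isOpen_compl.mem_nhds hcon'
  rw [nhds_prod_eq, Filter.mem_prod_iff] at hnh
  obtain ⟨U, hU, V, hV, hUV⟩ := hnh
  -- U contains a cylinder
  obtain ⟨n, hn⟩ : ∃ n, {x' : CC | ∀ i < n, x' i = x i} ⊆ U := by
    rw [nhds_pi, Filter.mem_pi] at hU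
    obtain ⟨I, hI, t, ht, hIU⟩ := hU
    obtain ⟨n, hn⟩ := hI.bddAbove
    refine ⟨n + 1, fun x' hx' => hIU fun i hi => ?_⟩
    rw [hx' i (Nat.lt_succ_of_le (hn hi))]
    exact mem_of_mem_nhds (ht i)
  obtain ⟨W, hW, hWV⟩ := (mem_nhds_subtype _ _ _).1 hV
  have hcov : Cov (fun N => py '' R N) (q :: μ) := by
    intro z hz ε hε
    obtain ⟨N0, hN0⟩ := exists_nat_one_div_lt hε
    filter_upwards [eventually_ge_atTop N0] with N hN
    obtain ⟨k2, hk2, hk2'⟩ := hRc N z hz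
    refine ⟨py k2, ⟨k2, hk2, rfl⟩, ((hRr N k2 hk2).2.trans_le ?_).trans hN0, hk2'⟩
    apply one_div_le_one_div_of_le (by positivity)
    have : (N0:ℝ) ≤ N := by exact_mod_cast hN
    linarith
  have hev := hcov.approx (fun N => (hR N).image _ py_cont.continuousOn)
    (by rintro N _ ⟨k2, _, rfl⟩; exact py_mem k2) y.2 hy hW
  obtain ⟨N, ⟨_, ⟨k2, hk2, rfl⟩, hk2W⟩, hNn⟩ := (hev.and (eventually_ge_atTop n)).exists
  obtain ⟨x2, y2, rfl⟩ := pr_surj k2
  have hx2 : x2 ∈ U := hn fun i hi => hRx N _ hk2 x2 y2 rfl i (hi.trans_le hNn)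
  have hy2 : y2 ∈ V := hWV hk2W
  exact hUV (show (x2, y2) ∈ U ×ˢ V from ⟨hx2, hy2⟩) (hRD N hk2)

/-- Two pieces of the same type in the same zone meet. -/
lemma pieces_meet {σ : List ℚ} (hσ : ∃ y ∈ YY, rad σ y = 0) {x x' : CC}
    (h : ∀ i < Encodable.encode σ, x i = x' i) :
    ∃ y : YY, rad σ y.1 = 0 ∧ pr x y = pr x' y := by
  obtain ⟨y0, hy0, h0⟩ := hσ
  obtain ⟨y, hy, h1, h2⟩ := exists_point_val hy0 h0 (ee_mem (xr x x'))
  refine ⟨⟨y, hy⟩, h1, pr_eq.2 ⟨rfl, Or.inr ⟨σ, h1, h2, fun i hi => xr_eq_false.2 (h i hi)⟩⟩⟩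

theorem countable_of_pairwiseDisjoint {F : Set (Set KK)}
    (hF : ∀ A ∈ F, IsCompact A ∧ IsPreconnected A ∧ A.Nontrivial)
    (hd : F.PairwiseDisjoint id) : F.Countable := by
  choose! σ x hσ hx using fun A (hA : A ∈ F) =>
    contains_piece (hF A hA).1 (hF A hA).2.1 (hF A hA).2.2
  let f : Set KK → List ℚ × List Bool := fun A =>
    (σ A, (List.range (Encodable.encode (σ A))).map (x A))
  have hinj : InjOn f F := by
    intro A hA B hB hAB
    by_contra hne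
    have h1 : σ A = σ B := congrArg Prod.fst hAB
    have h2 : (List.range (Encodable.encode (σ A))).map (x A) =
        (List.range (Encodable.encode (σ B))).map (x B) := congrArg Prod.snd hAB
    rw [← h1, List.map_inj_left] at h2
    obtain ⟨y, hy, hxy⟩ := pieces_meet (hσ A hA) (x := x A) (x' := x B)
      (fun i hi => h2 i (List.mem_range.2 hi))
    have hyA := hx A hA y hy
    have hyB := hx B hB y (by rw [← h1]; exact hy)
    rw [← hxy] at hyB
    exact Set.disjoint_left.1 (hd hA hB hne) hyA hyB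
  exact MapsTo.countable_of_injOn (mapsTo_univ f F) hinj countable_univ

end Pool.Agent.H31
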