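import Mathlib

open Set Topology Filter

namespace Pool.Agent.H31

section
variable {X : Type*} [MetricSpace X] (δ : ℕ → ℝ)

/-- terms of the new metric -/
noncomputable def tm (p q : X) (n : ℕ) : ℝ := (1/2:ℝ)^n * min 1 (dist p q / δ n)

/-- the new distance -/
noncomputable def nd (p q : X) : ℝ := ∑' n, tm δ p q n

variable {δ}

lemma tm_nonneg (hδ : ∀ n, 0 < δ n) (p q : X) (n : ℕ) : 0 ≤ tm δ p q n := by
  have := hδ n
  unfold tm; positivity

lemma tm_le (p q : X) (n : ℕ) : tm δ p q n ≤ (1/2:ℝ)^n := by
  unfold tm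
  have h : min 1 (dist p q / δ n) ≤ 1 := min_le_left _ _
  have h2 : (0:ℝ) ≤ (1/2)^n := by positivity
  nlinarith

lemma tm_summable (hδ : ∀ n, 0 < δ n) (p q : X) : Summable (tm δ p q) :=
  Summable.of_nonneg_of_le (tm_nonneg hδ p q) (tm_le p q) summable_geometric_two

lemma tm_le_nd (hδ : ∀ n, 0 < δ n) (p q : X) (n : ℕ) : tm δ p q n ≤ nd δ p q :=
  (tm_summable hδ p q).le_tsum n (fun j _ => tm_nonneg hδ p q j)

lemma dist_lt_of_nd_lt (hδ : ∀ n, 0 < δ n) {p q : X} {n : ℕ} (h : nd δ p q < (1/2:ℝ)^n) :
    dist p q < δ n := by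
  by_contra hcon
  push Not at hcon
  have h1 : 1 ≤ dist p q / δ n := by rw [le_div_iff₀ (hδ n)]; linarith
  have h2 := tm_le_nd hδ p q n
  unfold tm at h2
  rw [min_eq_left h1, mul_one] at h2
  linarith

lemma tm_tri (hδ : ∀ n, 0 < δ n) (p q r : X) (n : ℕ) : tm δ p r n ≤ tm δ p q n + tm δ q r n := by
  unfold tm
  rw [← mul_add]
  apply mul_le_mul_of_nonneg_left _ (by positivity)
  have h1 : dist p r / δ n ≤ dist p q / δ n + dist q r / δ n := by
    rw [← add_div]
    exact div_le_div_of_nonneg_right (dist_triangle p q r) (hδ n).le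
  have h2 : 0 ≤ dist p q / δ n := div_nonneg dist_nonneg (hδ n).le
  have h3 : 0 ≤ dist q r / δ n := div_nonneg dist_nonneg (hδ n).le
  rcases le_total 1 (dist p q / δ n) with h4 | h4
  · rw [min_eq_left h4]
    have := min_le_left 1 (dist p r / δ n)
    have : 0 ≤ min 1 (dist q r / δ n) := le_min zero_le_one h3
    linarith
  · rcases le_total 1 (dist q r / δ n) with h5 | h5
    · rw [min_eq_left h5]
      have := min_le_left 1 (dist p r / δ n)
      have : 0 ≤ min 1 (dist p q / δ n) := le_min zero_le_one h2
      linarith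
    · rw [min_eq_right h4, min_eq_right h5]
      exact (min_le_right _ _).trans h1

lemma nd_continuous (hδ : ∀ n, 0 < δ n) : Continuous fun p : X × X => nd δ p.1 p.2 := by
  unfold nd
  refine continuous_tsum (u := fun n => (1/2:ℝ)^n) (fun n => ?_) summable_geometric_two
    (fun n p => ?_)
  · unfold tm
    exact continuous_const.mul (continuous_const.min (continuous_dist.div_const _))
  · rw [Real.norm_eq_abs, abs_of_nonneg (tm_nonneg hδ _ _ n)]
    exact tm_le _ _ n

/-- the new metric space structure (with its own topology) -/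
@[reducible] noncomputable def newMet0 (hδ : ∀ n, 0 < δ n) : MetricSpace X where
  dist := nd δ
  dist_self p := by
    unfold nd tm; simp
  dist_comm p q := by
    unfold nd tm; simp [dist_comm]
  dist_triangle p q r := by
    show nd δ p r ≤ nd δ p q + nd δ q r
    unfold nd
    rw [← (tm_summable hδ p q).tsum_add (tm_summable hδ q r)]
    exact (tm_summable hδ p r).tsum_le_tsum (tm_tri hδ p q r)
      ((tm_summable hδ p q).add (tm_summable hδ q r))
  eq_of_dist_eq_zero := by
    intro p q h
    have h' : nd δ p q = 0 := h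
    by_contra hne
    have h1 : 0 < dist p q := dist_pos.2 hne
    have h2 : 0 < tm δ p q 0 := by
      unfold tm
      have := hδ 0
      positivity
    have h3 := tm_le_nd hδ p q 0
    linarith

lemma topo_eq {Z : Type*} (t1 t2 : TopologicalSpace Z) (h1 : @CompactSpace Z t1)
    (h2 : @T2Space Z t2) (hc : @Continuous Z Z t1 t2 id) : t1 = t2 := by
  have hcl : @IsClosedMap Z Z t1 t2 id := @Continuous.isClosedMap Z Z t1 t2 h1 h2 id hc
  refine TopologicalSpace.ext_iff_isClosed.2 ?_
  intro s
  constructor
  · intro hs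
    have := hcl s hs
    simpa using this
  · intro hs
    have := @IsClosed.preimage Z Z t1 t2 id hc s hs
    simpa using this

lemma met_t2 {Z : Type*} [MetricSpace Z] : T2Space Z := inferInstance

lemma newMet0_topology [CompactSpace X] (hδ : ∀ n, 0 < δ n) :
    (inferInstance : TopologicalSpace X) =
      (newMet0 (X := X) hδ).toPseudoMetricSpace.toUniformSpace.toTopologicalSpace := by
  refine topo_eq _ _ inferInstance (@met_t2 X (newMet0 (X := X) hδ)) ?_
  refine (@continuous_iff_continuousAt X X inferInstance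
    (newMet0 (X := X) hδ).toPseudoMetricSpace.toUniformSpace.toTopologicalSpace id).2
    fun p => ?_
  have h1 : Tendsto (fun q : X => nd δ q p) (𝓝 p) (𝓝 0) := by
    have hc : Continuous fun q : X => nd δ q p :=
      (nd_continuous hδ).comp (continuous_id.prodMk continuous_const)
    have := hc.tendsto p
    have h0 : nd δ p p = 0 := (newMet0 (X := X) hδ).dist_self p
    rwa [h0] at this
  exact (@tendsto_iff_dist_tendsto_zero X X (newMet0 (X := X) hδ).toPseudoMetricSpace
    id (𝓝 p) p).2 h1

/-- the new metric with the topology of the old one -/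
@[reducible] noncomputable def newMet [CompactSpace X] (hδ : ∀ n, 0 < δ n) : MetricSpace X :=
  (newMet0 (X := X) hδ).replaceTopology (newMet0_topology hδ)

lemma newMet_dist [CompactSpace X] (hδ : ∀ n, 0 < δ n) (p q : X) :
    (newMet (X := X) hδ).dist p q = nd δ p q := rfl

end

end Pool.Agent.H31
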