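import Mathlib
import Pool.Agent.H31.Key
import Pool.Agent.H31.Remetric

open Set Topology Filter MeasureTheory
open scoped ENNReal NNReal

namespace Pool.Agent.H31

/-- fair coin measure on Cantor space -/
noncomputable def mu : Measure CC :=
  Measure.infinitePi (fun _ : ℕ => (PMF.uniformOfFintype Bool).toMeasure)

instance : IsProbabilityMeasure mu := by unfold mu; infer_instance

lemma mu_cyl (n : ℕ) (x : CC) : mu {x' | ∀ i < n, x' i = x i} = (2⁻¹ : ℝ≥0∞) ^ n := by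
  have h : {x' : CC | ∀ i < n, x' i = x i} =
      Set.pi (Finset.range n : Set ℕ) (fun i => {x i}) := by
    ext x'; simp [Set.pi]
  rw [h, mu, Measure.infinitePi_pi _ (fun i _ => measurableSet_singleton _)]
  have h2 : ∀ i ∈ Finset.range n,
      (PMF.uniformOfFintype Bool).toMeasure {x i} = (2⁻¹ : ℝ≥0∞) := by
    intro i _
    rw [PMF.toMeasure_apply_singleton _ _ (measurableSet_singleton _)]
    simp
  rw [Finset.prod_congr rfl h2]
  simp

/-- each point has a neighbourhood meeting strands of only two cylinders -/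
lemma exists_nbhd (n : ℕ) (p : KK) : ∃ U : Set KK, IsOpen U ∧ p ∈ U ∧ ∃ x1 x2 : CC, ∀ x,
    (∃ y, pr x y ∈ U) → (∀ i < n, x i = x1 i) ∨ (∀ i < n, x i = x2 i) := by
  obtain ⟨x1, y1, rfl⟩ := pr_surj p
  obtain ⟨z0, hz0, hz0u⟩ := exists_cross_vec y1.1
  let T : Set CC := ({x | ∀ i < n, x i = x1 i} ∪ {x | ∀ i < n, x i = xr x1 z0 i})ᶜ
  have hT : IsClopen T := ((isClopen_cyl n x1).union (isClopen_cyl n (xr x1 z0))).compl
  have hcl := isClosed_image_pr hT.1 (isClosed_univ (X := YY))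
  refine ⟨_, hcl.isOpen_compl, ?_, x1, xr x1 z0, ?_⟩
  · rintro ⟨⟨x, y⟩, ⟨hx, _⟩, hxy⟩
    have h := pr_eq.1 hxy
    simp only at h
    obtain ⟨h1, h2⟩ := h
    subst h1
    rcases hz0u _ h2 with h3 | h3
    · exact hx (Or.inl fun i _ => xr_eq_false.1 (h3 i))
    · refine hx (Or.inr fun i _ => ?_)
      rw [← h3, xr_comm x x1, xr_cancel]
  · rintro x ⟨y, hy⟩
    by_contra hcon
    apply hy
    refine ⟨(x, y), ⟨?_, trivial⟩, rfl⟩
    intro h
    exact hcon h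

/-- an auxiliary metric on `KK` -/
@[reducible] noncomputable def m0 : MetricSpace KK := TopologicalSpace.metrizableSpaceMetric KK

lemma exists_delta : ∃ δ : ℕ → ℝ, (∀ n, 0 < δ n) ∧ ∀ n, ∀ B : Set KK,
    (∀ p ∈ B, ∀ q ∈ B, m0.dist p q < δ n) → ∃ x1 x2 : CC, ∀ x, (∃ y, pr x y ∈ B) →
      (∀ i < n * n, x i = x1 i) ∨ (∀ i < n * n, x i = x2 i) := by
  letI := m0
  have : ∀ n : ℕ, ∃ d : ℝ, 0 < d ∧ ∀ B : Set KK,
    (∀ p ∈ B, ∀ q ∈ B, m0.dist p q < d) → ∃ x1 x2 : CC, ∀ x, (∃ y, pr x y ∈ B) →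
      (∀ i < n * n, x i = x1 i) ∨ (∀ i < n * n, x i = x2 i) := by
    intro n
    choose U hU hpU x1 x2 hx using exists_nbhd (n * n)
    obtain ⟨d, hd, hball⟩ := lebesgue_number_lemma_of_metric (isCompact_univ (X := KK)) hU
      (fun p _ => mem_iUnion.2 ⟨p, hpU p⟩)
    refine ⟨d, hd, fun B hB => ?_⟩
    rcases B.eq_empty_or_nonempty with h0 | ⟨p, hp⟩
    · subst h0
      exact ⟨fun _ => false, fun _ => false, fun x ⟨y, hy⟩ => absurd hy (by simp)⟩
    · obtain ⟨i, hi⟩ := hball p trivial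
      refine ⟨x1 i, x2 i, fun x ⟨y, hy⟩ => hx i x ⟨y, hi ?_⟩⟩
      exact hB _ hy _ hp
  choose δ h1 h2 using this
  exact ⟨δ, h1, h2⟩

noncomputable def del : ℕ → ℝ := Classical.choose exists_delta

lemma del_pos : ∀ n, 0 < del n := (Classical.choose_spec exists_delta).1

lemma del_spec : ∀ n, ∀ B : Set KK,
    (∀ p ∈ B, ∀ q ∈ B, m0.dist p q < del n) → ∃ x1 x2 : CC, ∀ x, (∃ y, pr x y ∈ B) →
      (∀ i < n * n, x i = x1 i) ∨ (∀ i < n * n, x i = x2 i) :=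
  (Classical.choose_spec exists_delta).2

/-- the final metric -/
@[reducible] noncomputable def mK : MetricSpace KK := @newMet KK m0 del inferInstance del_pos

lemma mK_top : mK.toPseudoMetricSpace.toUniformSpace.toTopologicalSpace =
    (inferInstance : TopologicalSpace KK) := rfl

/-- the outer measure of strands meeting a set -/
noncomputable def nu : OuterMeasure KK where
  measureOf B := mu {x | ∃ y, pr x y ∈ B}
  empty := by simp
  mono := fun {A B} h => measure_mono (fun x ⟨y, hy⟩ => ⟨y, h hy⟩)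
  iUnion_nat := fun s _ => by
    have : {x : CC | ∃ y, pr x y ∈ ⋃ i, s i} = ⋃ i, {x : CC | ∃ y, pr x y ∈ s i} := by
      ext x
      simp only [mem_iUnion, mem_ofPred_eq]
      exact ⟨fun ⟨y, i, h⟩ => ⟨i, y, h⟩, fun ⟨i, y, h⟩ => ⟨y, i, h⟩⟩
    rw [this]
    exact measure_iUnion_le _

lemma nu_apply (B : Set KK) : nu B = mu {x | ∃ y, pr x y ∈ B} := rfl

lemma nu_le (n : ℕ) (B : Set KK) (h : @Metric.ediam KK mK.toPseudoMetricSpace.toPseudoEMetricSpace B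
    < (2⁻¹ : ℝ≥0∞) ^ n) : nu B ≤ 2 * (2⁻¹ : ℝ≥0∞) ^ (n * n) := by
  have h1 : ∀ p ∈ B, ∀ q ∈ B, m0.dist p q < del n := by
    intro p hp q hq
    refine @dist_lt_of_nd_lt KK m0 del del_pos p q n ?_
    have h2 : @edist KK mK.toPseudoMetricSpace.toPseudoEMetricSpace.toEDist p q <
        (2⁻¹ : ℝ≥0∞) ^ n :=
      lt_of_le_of_lt (by
        letI : MetricSpace KK := mK
        exact Metric.edist_le_ediam_of_mem hp hq) h
    rw [@edist_dist KK mK.toPseudoMetricSpace] at h2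
    have h3 : (2⁻¹ : ℝ≥0∞) ^ n = ENNReal.ofReal ((1/2:ℝ)^n) := by
      rw [ENNReal.ofReal_pow (by norm_num)]
      congr 1
      rw [one_div, ENNReal.ofReal_inv_of_pos (by norm_num)]
      simp
    rw [h3, ENNReal.ofReal_lt_ofReal_iff (by positivity)] at h2
    exact h2
  obtain ⟨x1, x2, hx⟩ := del_spec n B h1
  rw [nu_apply]
  calc mu {x | ∃ y, pr x y ∈ B}
      ≤ mu ({x | ∀ i < n * n, x i = x1 i} ∪ {x | ∀ i < n * n, x i = x2 i}) :=
        measure_mono fun x hxB => hx x hxB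
    _ ≤ mu {x | ∀ i < n * n, x i = x1 i} + mu {x | ∀ i < n * n, x i = x2 i} :=
        measure_union_le _ _
    _ = 2 * (2⁻¹ : ℝ≥0∞) ^ (n * n) := by rw [mu_cyl, mu_cyl, two_mul]

lemma nu_le_ediam (d : ℕ) (hd : 0 < d) (B : Set KK)
    (h : @Metric.ediam KK mK.toPseudoMetricSpace.toPseudoEMetricSpace B
      ≤ (2⁻¹ : ℝ≥0∞) ^ (d + 2)) :
    nu B ≤ (@Metric.ediam KK mK.toPseudoMetricSpace.toPseudoEMetricSpace B) ^ d := by
  set D := @Metric.ediam KK mK.toPseudoMetricSpace.toPseudoEMetricSpace B with hDdef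
  rcases eq_or_ne D 0 with h0 | h0
  · rw [h0, zero_pow hd.ne']
    have h1 : ∀ n : ℕ, nu B ≤ 2 * (2⁻¹ : ℝ≥0∞) ^ (n * n) := fun n => nu_le n B (by
      rw [← hDdef, h0]
      exact ENNReal.pow_pos (by simp) n)
    have h2 : Tendsto (fun n : ℕ => 2 * (2⁻¹ : ℝ≥0∞) ^ (n * n)) atTop (𝓝 (2 * 0)) := by
      refine ENNReal.Tendsto.const_mul ?_ (Or.inr (by simp))
      have h3 : Tendsto (fun n : ℕ => (2⁻¹ : ℝ≥0∞) ^ n) atTop (𝓝 0) :=
        ENNReal.tendsto_pow_atTop_nhds_zero_of_lt_one (by simp)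
      exact h3.comp (tendsto_atTop_mono (fun n => Nat.le_mul_self n) tendsto_id)
    rw [mul_zero] at h2
    exact ge_of_tendsto' h2 h1
  · classical
    obtain ⟨m, hm⟩ := ENNReal.exists_inv_two_pow_lt h0
    have hex : ∃ m : ℕ, (2⁻¹ : ℝ≥0∞) ^ m ≤ D := ⟨m, hm.le⟩
    have hspec := Nat.find_spec hex
    have hmin := fun k => Nat.find_min hex (m := k)
    set M := Nat.find hex with hM
    have hlt1 : (2⁻¹ : ℝ≥0∞) < 1 := by simp
    have hMd : d + 2 ≤ M := by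
      by_contra hcon
      push Not at hcon
      have h1 : (2⁻¹ : ℝ≥0∞) ^ (d + 2) ≤ (2⁻¹ : ℝ≥0∞) ^ (M + 1) :=
        pow_le_pow_of_le_one (by simp) hlt1.le hcon
      have h2 : (2⁻¹ : ℝ≥0∞) ^ (M + 1) < (2⁻¹ : ℝ≥0∞) ^ M := by
        rw [pow_succ, ← div_eq_mul_inv]
        exact ENNReal.half_lt_self (ENNReal.pow_pos (by simp) M).ne' (by simp)
      exact absurd (hspec.trans h) (not_le.2 (h1.trans_lt h2))
    obtain ⟨n, hn⟩ : ∃ n, M = n + 1 := ⟨M - 1, by omega⟩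
    have hn1 : D < (2⁻¹ : ℝ≥0∞) ^ n := not_le.1 (hmin n (by omega))
    have hnd : d + 1 ≤ n := by omega
    calc nu B ≤ 2 * (2⁻¹ : ℝ≥0∞) ^ (n * n) := nu_le n B hn1
      _ ≤ (2⁻¹ : ℝ≥0∞) ^ ((n + 1) * d) := by
          have h1 : (n + 1) * d + 1 ≤ n * n := by nlinarith
          have h2 : (2⁻¹ : ℝ≥0∞) ^ (n * n) ≤ (2⁻¹ : ℝ≥0∞) ^ ((n + 1) * d + 1) :=
            pow_le_pow_of_le_one (by simp) hlt1.le h1
          calc 2 * (2⁻¹ : ℝ≥0∞) ^ (n * n) ≤ 2 * (2⁻¹ : ℝ≥0∞) ^ ((n + 1) * d + 1) := by gcongr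
            _ = (2⁻¹ : ℝ≥0∞) ^ ((n + 1) * d) * (2 * 2⁻¹) := by rw [pow_succ]; ring
            _ = (2⁻¹ : ℝ≥0∞) ^ ((n + 1) * d) := by
              rw [ENNReal.mul_inv_cancel (by simp) (by simp), mul_one]
      _ = ((2⁻¹ : ℝ≥0∞) ^ M) ^ d := by rw [hn, pow_mul]
      _ ≤ D ^ d := by gcongr

lemma dimH_top (S : Set KK) (hS : ∀ x : CC, ∃ y, pr x y ∈ S) :
    @dimH KK mK.toEMetricSpace S = ⊤ := by
  letI : MetricSpace KK := mK
  borelize KK
  have key : ∀ d : ℕ, 0 < d → ((d : ℝ≥0) : ℝ≥0∞) ≤ dimH S := by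
    intro d hd
    apply le_dimH_of_hausdorffMeasure_ne_zero
    have hle : nu ≤ OuterMeasure.mkMetric (fun r : ℝ≥0∞ => r ^ ((d : ℝ≥0) : ℝ)) := by
      refine OuterMeasure.le_mkMetric _ nu ((2⁻¹ : ℝ≥0∞) ^ (d + 2))
        (ENNReal.pow_pos (by simp) _) (fun s hs => ?_)
      have h1 := nu_le_ediam d hd s hs
      have h2 : (Metric.ediam s) ^ (((d : ℝ≥0) : ℝ)) = (Metric.ediam s) ^ d := by
        rw [NNReal.coe_natCast, ENNReal.rpow_natCast]
      show nu s ≤ (Metric.ediam s) ^ (((d : ℝ≥0) : ℝ))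
      rw [h2]
      exact h1
    have h1 : nu S = 1 := by
      rw [nu_apply]
      have : {x | ∃ y, pr x y ∈ S} = univ := eq_univ_of_forall hS
      rw [this]; exact measure_univ
    have h2 : nu S ≤ Measure.hausdorffMeasure ((d : ℝ≥0) : ℝ) S := by
      rw [Measure.hausdorffMeasure, ← OuterMeasure.coe_mkMetric]
      exact hle S
    intro h3
    rw [h1, h3] at h2
    exact absurd h2 (by simp)
  refine ENNReal.eq_top_of_forall_nnreal_le fun r => ?_
  obtain ⟨n, hn⟩ := exists_nat_gt r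
  refine le_trans ?_ (key (n + 1) (Nat.succ_pos n))
  have : r ≤ ((n + 1 : ℕ) : ℝ≥0) := by push_cast; exact hn.le.trans (by simp)
  exact_mod_cast this

end Pool.Agent.H31
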